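import Mathlib
import Pool.Agent.Work.MP_d3656f_al.Defs

/-!
# A/Fam : left and right multiplications of one of the last two letters by elements of `sub2 n`

Two automorphisms of the free group are equal iff they agree on the basis (`aut_ext`).
`L_ex`: for `w ∈ P = sub2 n` the endomorphism `L_w : x_i ↦ w⁻¹ x_i`, other letters fixed, fixes `P`
pointwise (`i` is not a letter of `P`). `L_w L_{w'} x_i = L_w (w'⁻¹ x_i) = w'⁻¹ w⁻¹ x_i
= (w w')⁻¹ x_i`, so `L` is multiplicative and `L_{w⁻¹}` is the inverse of `L_w`.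
`R_ex`: `R_w : x_i ↦ x_i w`, `R_w R_{w'} x_i = R_w (x_i w') = x_i w w'`. (Note the inverse in `L` and
no inverse in `R`: with this choice both are homomorphisms for the composition
`(α β) x = α (β x)`.)
-/

set_option autoImplicit false

namespace Pool.Agent.Work.MP_d3656f_al

theorem aut_ext {n : ℕ} {α β : MulAut (FreeGroup (Fin n))}
    (h : ∀ i, α (FreeGroup.of i) = β (FreeGroup.of i)) : α = β := by
  have h1 : α.toMonoidHom = β.toMonoidHom := FreeGroup.ext_hom _ _ h
  apply MulEquiv.ext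
  intro x
  exact DFunLike.congr_fun h1 x

/-- An endomorphism fixing the letters of `sub2 n` fixes `sub2 n`. -/
theorem fix_sub2 {n : ℕ} {α : MulAut (FreeGroup (Fin n))}
    (h : ∀ i : Fin n, (i : ℕ) + 2 < n → α (FreeGroup.of i) = FreeGroup.of i)
    {w : FreeGroup (Fin n)} (hw : w ∈ sub2 n) : α w = w := by
  unfold sub2 at hw
  induction hw using Subgroup.closure_induction with
  | mem x hx =>
    obtain ⟨i, hi, rfl⟩ := hx
    exact h i hi
  | one => exact map_one α
  | mul x y _ _ hx hy => rw [map_mul, hx, hy]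
  | inv x _ hx => rw [map_inv, hx]

private theorem fix_hom {n : ℕ} {f : FreeGroup (Fin n) →* FreeGroup (Fin n)}
    (h : ∀ i : Fin n, (i : ℕ) + 2 < n → f (FreeGroup.of i) = FreeGroup.of i)
    {w : FreeGroup (Fin n)} (hw : w ∈ sub2 n) : f w = w := by
  unfold sub2 at hw
  induction hw using Subgroup.closure_induction with
  | mem x hx =>
    obtain ⟨i, hi, rfl⟩ := hx
    exact h i hi
  | one => exact map_one f
  | mul x y _ _ hx hy => rw [map_mul, hx, hy]
  | inv x _ hx => rw [map_inv, hx]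

private theorem fam_ex {n : ℕ} (f : sub2 n → FreeGroup (Fin n) →* FreeGroup (Fin n))
    (h1 : f 1 = MonoidHom.id _) (hm : ∀ w w', (f w).comp (f w') = f (w * w')) :
    ∃ L : sub2 n →* MulAut (FreeGroup (Fin n)), ∀ w x, L w x = f w x := by
  have hi : ∀ w, (f w⁻¹).comp (f w) = MonoidHom.id _ := by
    intro w
    rw [hm, inv_mul_cancel, h1]
  have hi' : ∀ w, (f w).comp (f w⁻¹) = MonoidHom.id _ := by
    intro w
    rw [hm, mul_inv_cancel, h1]
  refine ⟨MonoidHom.mk' (fun w => MonoidHom.toMulEquiv (f w) (f w⁻¹) (hi w) (hi' w))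
    fun w w' => ?_, fun w x => rfl⟩
  apply MulEquiv.ext
  intro x
  exact (DFunLike.congr_fun (hm w w') x).symm

theorem L_ex {n : ℕ} (i : Fin n) (hi : n ≤ (i : ℕ) + 2) :
    ∃ L : sub2 n →* MulAut (FreeGroup (Fin n)), ∀ w : sub2 n,
      L w (FreeGroup.of i) = (w : FreeGroup (Fin n))⁻¹ * FreeGroup.of i ∧
        ∀ k, k ≠ i → L w (FreeGroup.of k) = FreeGroup.of k := by
  classical
  obtain ⟨f, hf⟩ : ∃ f : sub2 n → FreeGroup (Fin n) →* FreeGroup (Fin n), ∀ w,
      f w = FreeGroup.lift fun k => if k = i then (w : FreeGroup (Fin n))⁻¹ * FreeGroup.of i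
        else FreeGroup.of k := ⟨_, fun w => rfl⟩
  have f1 : ∀ w, f w (FreeGroup.of i) = (w : FreeGroup (Fin n))⁻¹ * FreeGroup.of i := by
    intro w
    rw [hf, FreeGroup.lift_apply_of, if_pos rfl]
  have f2 : ∀ w, ∀ k, k ≠ i → f w (FreeGroup.of k) = FreeGroup.of k := by
    intro w k hk
    rw [hf, FreeGroup.lift_apply_of, if_neg hk]
  have f3 : ∀ w, ∀ {x : FreeGroup (Fin n)}, x ∈ sub2 n → f w x = x := by
    intro w x hx
    refine fix_hom (fun k hk => f2 w k ?_) hx
    intro h
    rw [h] at hk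
    omega
  obtain ⟨L, hL⟩ := fam_ex f (by
      apply FreeGroup.ext_hom
      intro k
      by_cases hk : k = i
      · rw [hk, f1, Subgroup.coe_one, inv_one, one_mul]
        rfl
      · rw [f2 1 k hk]
        rfl) (by
      intro w w'
      apply FreeGroup.ext_hom
      intro k
      rw [MonoidHom.comp_apply]
      by_cases hk : k = i
      · rw [hk, f1, f1, map_mul, f1, f3 w ((sub2 n).inv_mem w'.2), Subgroup.coe_mul, mul_inv_rev,
          mul_assoc]
      · rw [f2 _ k hk, f2 _ k hk, f2 _ k hk])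
  exact ⟨L, fun w => ⟨by rw [hL, f1], fun k hk => by rw [hL, f2 w k hk]⟩⟩

theorem R_ex {n : ℕ} (i : Fin n) (hi : n ≤ (i : ℕ) + 2) :
    ∃ R : sub2 n →* MulAut (FreeGroup (Fin n)), ∀ w : sub2 n,
      R w (FreeGroup.of i) = FreeGroup.of i * (w : FreeGroup (Fin n)) ∧
        ∀ k, k ≠ i → R w (FreeGroup.of k) = FreeGroup.of k := by
  classical
  obtain ⟨f, hf⟩ : ∃ f : sub2 n → FreeGroup (Fin n) →* FreeGroup (Fin n), ∀ w,
      f w = FreeGroup.lift fun k => if k = i then FreeGroup.of i * (w : FreeGroup (Fin n))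
        else FreeGroup.of k := ⟨_, fun w => rfl⟩
  have f1 : ∀ w, f w (FreeGroup.of i) = FreeGroup.of i * (w : FreeGroup (Fin n)) := by
    intro w
    rw [hf, FreeGroup.lift_apply_of, if_pos rfl]
  have f2 : ∀ w, ∀ k, k ≠ i → f w (FreeGroup.of k) = FreeGroup.of k := by
    intro w k hk
    rw [hf, FreeGroup.lift_apply_of, if_neg hk]
  have f3 : ∀ w, ∀ {x : FreeGroup (Fin n)}, x ∈ sub2 n → f w x = x := by
    intro w x hx
    refine fix_hom (fun k hk => f2 w k ?_) hx
    intro h
    rw [h] at hk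
    omega
  obtain ⟨L, hL⟩ := fam_ex f (by
      apply FreeGroup.ext_hom
      intro k
      by_cases hk : k = i
      · rw [hk, f1, Subgroup.coe_one, mul_one]
        rfl
      · rw [f2 1 k hk]
        rfl) (by
      intro w w'
      apply FreeGroup.ext_hom
      intro k
      rw [MonoidHom.comp_apply]
      by_cases hk : k = i
      · rw [hk, f1, f1, map_mul, f1, f3 w w'.2, Subgroup.coe_mul, mul_assoc]
      · rw [f2 _ k hk, f2 _ k hk, f2 _ k hk])
  exact ⟨L, fun w => ⟨by rw [hL, f1], fun k hk => by rw [hL, f2 w k hk]⟩⟩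

end Pool.Agent.Work.MP_d3656f_al
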