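import Mathlib
import Pool.Agent.Work.MP_d3656f_al.T.Hom

/-!
# A/Avg : averaging a quasimorphism over the centraliser

`AQ C qh` lists the properties of the averaged function on `C`.

`qnull_of`: let `C = centralizer {z}`, `H ≤ C` of finite index in `C`, `q` `HQM` on `H` (defect `D`),
`z^k ∈ H`. Let `N0` be the normal core of `H` in `C` (as a subgroup of `A` inside `C`), of finite
index `N` in `C`; `x^N ∈ N0` for all `x ∈ C` (`Subgroup.pow_index_mem` for a normal subgroup). For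
`x ∈ C` put
`qh x = (1/N) Σ_{c ∈ C/N0} q (c x^N c⁻¹) / N`
(well defined: `q` restricted to `N0` is invariant under conjugation by `N0 ≤ H`, `hqm_conj`; the sum
is over the finite quotient of `C` by `N0`).
* pow, comm: `(x y)^N = x^N y^N` for commuting `x, y`; `hqm_comm` for commuting elements of `N0`.
* conj: conjugation by `c ∈ C` permutes the summands.
* bdd (with this `N`): for `x, y ∈ C` let `X = x^(N m) ∈ N0`;
  `(X y)^N = X (y X y⁻¹) (y² X y⁻²) ... (y^(N-1) X y^(-(N-1))) y^N`, a product of `N + 1` elements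
  of `N0`, so `|qh (X y) - (1/N) (N qh X + N qh y)| ≤ N D / N`-type bound: precisely
  `|q (c (X y)^N c⁻¹) - Σ_{i<N} q (c y^i X y^(-i) c⁻¹) - q (c y^N c⁻¹)| ≤ N D` and after averaging
  over `c` every one of the `N` terms gives the average `(1/N) Σ_c q (c X c⁻¹) = qh X`
  (as `q (c X^N c⁻¹) = N q (c X c⁻¹)`), so `|N qh (X y) - N qh X - N qh y| ≤ N D`, and
  `qh X = N m qh x`.
* `qh (z^k) = q (z^k)`: `z` is central in `C`, `q (z^(k N)) = N q (z^k)`.
So `q (z^k) = qh (z^k) = k qh z = 0`.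
-/

set_option autoImplicit false

namespace Pool.Agent.Work.MP_d3656f_al

/-- Properties of an averaged quasimorphism on `C`. -/
structure AQ {A : Type} [Group A] (C : Subgroup A) (qh : A → ℝ) : Prop where
  pow : ∀ x ∈ C, ∀ n : ℕ, qh (x ^ n) = n * qh x
  comm : ∀ x ∈ C, ∀ y ∈ C, x * y = y * x → qh (x * y) = qh x + qh y
  conj : ∀ x ∈ C, ∀ c ∈ C, qh (c * x * c⁻¹) = qh x
  bdd : ∃ N : ℕ, 0 < N ∧ ∀ x ∈ C, ∀ y ∈ C, ∃ B : ℝ, ∀ m : ℕ,
    |qh (x ^ (N * m) * y) - (N * m : ℕ) * qh x| ≤ B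

private theorem S_conj {G : Type} [Group G] (N0 : Subgroup G) [N0.Normal] [Fintype (G ⧸ N0)]
    {q : G → ℝ} (hq : HQM N0 q) {x : G} (hx : x ∈ N0) (g : G) :
    ∑ c : G ⧸ N0, q (c.out * (g * x * g⁻¹) * c.out⁻¹) = ∑ c : G ⧸ N0, q (c.out * x * c.out⁻¹) := by
  have hnorm : N0.Normal := inferInstance
  rw [← Equiv.sum_comp (Equiv.mulRight (g : G ⧸ N0))
    (fun c : G ⧸ N0 => q (c.out * x * c.out⁻¹))]
  refine Finset.sum_congr rfl fun c _ => ?_
  set d : G ⧸ N0 := c * (g : G ⧸ N0) with hd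
  have h0 : (Equiv.mulRight (g : G ⧸ N0)) c = d := rfl
  rw [h0]
  have h1 : ((d.out : G) : G ⧸ N0) = ((c.out * g : G) : G ⧸ N0) := by
    rw [QuotientGroup.mk_mul, QuotientGroup.out_eq', QuotientGroup.out_eq']
  have h2 : (d.out)⁻¹ * (c.out * g) ∈ N0 := QuotientGroup.eq.1 h1
  have h3 : d.out * ((d.out)⁻¹ * (c.out * g)) * (d.out)⁻¹ ∈ N0 := hnorm.conj_mem _ h2 _
  have h4 : d.out * x * (d.out)⁻¹ ∈ N0 := hnorm.conj_mem _ hx _
  rw [← hqm_conj hq h4 h3]
  congr 1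
  group

private theorem avg_exists {G : Type} [Group G] (N0 : Subgroup G) [N0.Normal]
    (hfin : N0.index ≠ 0) (q : G → ℝ) (hq : HQM N0 q) :
    ∃ Qh : G → ℝ, (∀ x (n : ℕ), Qh (x ^ n) = n * Qh x) ∧
      (∀ x y, x * y = y * x → Qh (x * y) = Qh x + Qh y) ∧
      (∀ x c, Qh (c * x * c⁻¹) = Qh x) ∧
      (∀ x y, ∃ B : ℝ, ∀ m : ℕ,
        |Qh (x ^ (N0.index * m) * y) - (N0.index * m : ℕ) * Qh x| ≤ B) ∧
      ∀ x ∈ N0, (∀ c, c * x = x * c) → Qh x = q x := by
  have hnorm : N0.Normal := inferInstance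
  haveI : N0.FiniteIndex := ⟨hfin⟩
  haveI : Fintype (G ⧸ N0) := Subgroup.fintypeQuotientOfFiniteIndex
  have hcard : (Fintype.card (G ⧸ N0) : ℝ) = N0.index := by
    rw [Subgroup.index, Nat.card_eq_fintype_card]
  set N := N0.index with hN
  have hNpos : 0 < N := Nat.pos_of_ne_zero hfin
  have hNr : (0 : ℝ) < N := by exact_mod_cast hNpos
  have hNm : ∀ x : G, x ^ N ∈ N0 := fun x => Subgroup.pow_index_mem N0 x
  obtain ⟨S, hS⟩ : ∃ S : G → ℝ, ∀ x, S x = ∑ c : G ⧸ N0, q (c.out * x * c.out⁻¹) :=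
    ⟨_, fun x => rfl⟩
  have hconj : ∀ (c x : G), x ∈ N0 → c * x * c⁻¹ ∈ N0 := fun c x hx => hnorm.conj_mem x hx c
  have hSc : ∀ x ∈ N0, ∀ g, S (g * x * g⁻¹) = S x := by
    intro x hx g
    rw [hS, hS]
    exact S_conj N0 hq hx g
  have hSp : ∀ x ∈ N0, ∀ n : ℕ, S (x ^ n) = n * S x := by
    intro x hx n
    rw [hS, hS, Finset.mul_sum]
    refine Finset.sum_congr rfl fun c _ => ?_
    rw [← hq.2 _ (hconj _ _ hx) n, conj_pow]
  obtain ⟨D, hD⟩ := hq.1
  have hq1 : q 1 = 0 := hqm_one hq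
  have hpow : ∀ (x : G) (n : ℕ), S ((x ^ n) ^ N) = n * S (x ^ N) := by
    intro x n
    rw [← pow_mul, mul_comm n N, pow_mul, hSp _ (hNm x)]
  have hpow2 : ∀ (x : G) (n : ℕ), S ((x ^ n) ^ N) / (N : ℝ) ^ 2 = n * (S (x ^ N) / (N : ℝ) ^ 2) := by
    intro x n
    rw [hpow, mul_div_assoc]
  refine ⟨fun x => S (x ^ N) / (N : ℝ) ^ 2, hpow2, ?_, ?_, ?_, ?_⟩
  · intro x y hxy
    have hc : Commute x y := hxy
    have h1 : S ((x * y) ^ N) = S (x ^ N) + S (y ^ N) := by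
      rw [hc.mul_pow, hS, hS, hS, ← Finset.sum_add_distrib]
      refine Finset.sum_congr rfl fun c _ => ?_
      have h2 : c.out * (x ^ N * y ^ N) * c.out⁻¹ =
          (c.out * x ^ N * c.out⁻¹) * (c.out * y ^ N * c.out⁻¹) := by group
      rw [h2]
      refine hqm_comm hq (hconj _ _ (hNm x)) (hconj _ _ (hNm y)) ?_
      rw [← h2, (hc.pow_pow N N).eq]
      group
    simp only
    rw [h1, add_div]
  · intro x c
    simp only
    rw [conj_pow, hSc _ (hNm x)]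
  · intro x y
    refine ⟨((N : ℝ) + 1) * D * N / (N : ℝ) ^ 2 + |S (y ^ N) / (N : ℝ) ^ 2|, fun m => ?_⟩
    simp only
    set X : G := x ^ (N * m) with hX
    have hXm : X ∈ N0 := by
      rw [hX, pow_mul]
      exact N0.pow_mem (hNm x) m
    have hXj : ∀ i : ℕ, y ^ i * X * (y ^ i)⁻¹ ∈ N0 := fun i => hconj _ _ hXm
    have hA : ∀ i : ℕ, (X * y) ^ i * (y ^ i)⁻¹ ∈ N0 ∧ ∀ c : G,
        |q (c * ((X * y) ^ i * (y ^ i)⁻¹) * c⁻¹) -
          ∑ j ∈ Finset.range i, q (c * (y ^ j * X * (y ^ j)⁻¹) * c⁻¹)| ≤ i * D := by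
      intro i
      induction i with
      | zero =>
        refine ⟨by rw [pow_zero, pow_zero, inv_one, mul_one]; exact N0.one_mem, fun c => ?_⟩
        rw [pow_zero, pow_zero, inv_one, mul_one, mul_one, mul_inv_cancel, hq1, Finset.sum_range_zero,
          sub_zero, abs_zero, Nat.cast_zero, zero_mul]
      | succ i ih =>
        obtain ⟨ih1, ih2⟩ := ih
        have e1 : (X * y) ^ (i + 1) * (y ^ (i + 1))⁻¹ =
            ((X * y) ^ i * (y ^ i)⁻¹) * (y ^ i * X * (y ^ i)⁻¹) := by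
          rw [pow_succ (X * y) i, pow_succ' y i]
          group
        refine ⟨by rw [e1]; exact N0.mul_mem ih1 (hXj i), fun c => ?_⟩
        rw [e1, Finset.sum_range_succ]
        have e2 : c * ((X * y) ^ i * (y ^ i)⁻¹ * (y ^ i * X * (y ^ i)⁻¹)) * c⁻¹ =
            (c * ((X * y) ^ i * (y ^ i)⁻¹) * c⁻¹) * (c * (y ^ i * X * (y ^ i)⁻¹) * c⁻¹) := by group
        rw [e2]
        have h3 := hD _ (hconj c _ ih1) _ (hconj c _ (hXj i))
        have h4 := ih2 c
        rw [abs_le] at h3 h4 ⊢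
        push_cast
        constructor <;> nlinarith [h3.1, h3.2, h4.1, h4.2]
    have hB : ∀ c : G, |q (c * (X * y) ^ N * c⁻¹) -
        ∑ j ∈ Finset.range N, q (c * (y ^ j * X * (y ^ j)⁻¹) * c⁻¹) - q (c * y ^ N * c⁻¹)| ≤
          ((N : ℝ) + 1) * D := by
      intro c
      have e2 : c * (X * y) ^ N * c⁻¹ =
          (c * ((X * y) ^ N * (y ^ N)⁻¹) * c⁻¹) * (c * y ^ N * c⁻¹) := by group
      rw [e2]
      have h3 := hD _ (hconj c _ (hA N).1) _ (hconj c _ (hNm y))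
      have h4 := (hA N).2 c
      rw [abs_le] at h3 h4 ⊢
      constructor <;> nlinarith [h3.1, h3.2, h4.1, h4.2]
    have hsum : |S ((X * y) ^ N) - N * S X - S (y ^ N)| ≤ N * (((N : ℝ) + 1) * D) := by
      have e3 : (N : ℝ) * S X = ∑ c : G ⧸ N0, ∑ j ∈ Finset.range N,
          q (c.out * (y ^ j * X * (y ^ j)⁻¹) * c.out⁻¹) := by
        rw [Finset.sum_comm]
        have e4 : ∀ j ∈ Finset.range N, ∑ c : G ⧸ N0,
            q (c.out * (y ^ j * X * (y ^ j)⁻¹) * c.out⁻¹) = S X := by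
          intro j _
          rw [← hS]
          exact hSc X hXm _
        rw [Finset.sum_congr rfl e4, Finset.sum_const, Finset.card_range, nsmul_eq_mul]
      rw [e3, hS, hS, ← Finset.sum_sub_distrib, ← Finset.sum_sub_distrib]
      refine (Finset.abs_sum_le_sum_abs _ _).trans ?_
      refine (Finset.sum_le_sum fun c _ => hB c.out).trans ?_
      rw [Finset.sum_const, Finset.card_univ, nsmul_eq_mul, hcard]
    have hXS : S (X ^ N) / (N : ℝ) ^ 2 = N * S X / (N : ℝ) ^ 2 := by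
      rw [hSp X hXm]
    have hXx : S (X ^ N) / (N : ℝ) ^ 2 = (N * m : ℕ) * (S (x ^ N) / (N : ℝ) ^ 2) := hpow2 x (N * m)
    rw [← hXx, hXS]
    have e5 : S ((X * y) ^ N) / (N : ℝ) ^ 2 - N * S X / (N : ℝ) ^ 2 =
        (S ((X * y) ^ N) - N * S X - S (y ^ N)) / (N : ℝ) ^ 2 + S (y ^ N) / (N : ℝ) ^ 2 := by ring
    rw [e5]
    refine (abs_add_le _ _).trans (add_le_add ?_ le_rfl)
    rw [abs_div, abs_of_pos (by positivity : (0 : ℝ) < (N : ℝ) ^ 2)]
    refine div_le_div_of_nonneg_right ?_ (by positivity)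
    calc |S ((X * y) ^ N) - N * S X - S (y ^ N)| ≤ N * (((N : ℝ) + 1) * D) := hsum
      _ = ((N : ℝ) + 1) * D * N := by ring
  · intro x hx hc
    simp only
    have h1 : S (x ^ N) = (N : ℝ) ^ 2 * q x := by
      rw [hSp x hx, hS]
      have h2 : ∀ c ∈ (Finset.univ : Finset (G ⧸ N0)), q (c.out * x * c.out⁻¹) = q x := by
        intro c _
        rw [hc c.out, mul_inv_cancel_right]
      rw [Finset.sum_congr rfl h2, Finset.sum_const, Finset.card_univ, nsmul_eq_mul, hcard]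
      ring
    rw [h1, mul_div_cancel_left₀ _ (by positivity)]

theorem qnull_of {A : Type} [Group A] (z : A)
    (h : ∀ qh : A → ℝ, AQ (Subgroup.centralizer {z}) qh → qh z = 0) : QuasiNull z := by
  classical
  intro H hHC hrel q hq k hzk
  set C : Subgroup A := Subgroup.centralizer {z} with hC
  set H' : Subgroup C := H.subgroupOf C with hH'
  haveI hfi : H'.FiniteIndex := ⟨hrel⟩
  set N0 : Subgroup C := H'.normalCore with hN0
  haveI : N0.Normal := Subgroup.normalCore_normal H'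
  have hfin : N0.index ≠ 0 := (inferInstance : (H'.normalCore).FiniteIndex).index_ne_zero
  have hle : N0 ≤ H' := Subgroup.normalCore_le H'
  have hmem : ∀ x : C, x ∈ N0 → (x : A) ∈ H := fun x hx => Subgroup.mem_subgroupOf.1 (hle hx)
  have hq' : HQM N0 (fun x : C => q x) := by
    obtain ⟨⟨D, hD⟩, h2⟩ := hq
    refine ⟨⟨D, fun x hx y hy => ?_⟩, fun x hx n => ?_⟩
    · have := hD x (hmem x hx) y (hmem y hy)
      simpa using this
    · have := h2 x (hmem x hx) n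
      simpa using this
  obtain ⟨Qh, p1, p2, p3, p4, p5⟩ := avg_exists N0 hfin (fun x : C => q x) hq'
  obtain ⟨qh, hqh⟩ : ∃ qh : A → ℝ, ∀ x : C, qh x = Qh x := by
    refine ⟨fun x => if hx : x ∈ C then Qh ⟨x, hx⟩ else 0, fun x => ?_⟩
    simp only [x.2, dif_pos]
  have hzC : z ∈ C := Subgroup.mem_centralizer_singleton_iff.2 rfl
  have hAQ : AQ C qh := by
    refine ⟨fun x hx n => ?_, fun x hx y hy hxy => ?_, fun x hx c hc => ?_,
      N0.index, Nat.pos_of_ne_zero hfin, fun x hx y hy => ?_⟩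
    · have h1 := p1 ⟨x, hx⟩ n
      rw [← hqh, ← hqh] at h1
      exact h1
    · have h1 := p2 ⟨x, hx⟩ ⟨y, hy⟩ (Subtype.ext hxy)
      rw [← hqh, ← hqh, ← hqh] at h1
      exact h1
    · have h1 := p3 ⟨x, hx⟩ ⟨c, hc⟩
      rw [← hqh, ← hqh] at h1
      exact h1
    · obtain ⟨B, hB⟩ := p4 ⟨x, hx⟩ ⟨y, hy⟩
      refine ⟨B, fun m => ?_⟩
      have h1 := hB m
      rw [← hqh, ← hqh] at h1
      exact h1
  have hz0 : qh z = 0 := h qh hAQ
  have hcen : ∀ c : C, c * (⟨z, hzC⟩ : C) = ⟨z, hzC⟩ * c := by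
    intro c
    apply Subtype.ext
    exact (Subgroup.mem_centralizer_singleton_iff.1 c.2)
  have hcenk : ∀ c : C, c * (⟨z, hzC⟩ : C) ^ k = (⟨z, hzC⟩ : C) ^ k * c := fun c =>
    (Commute.pow_right (hcen c) k)
  have hzkN : (⟨z, hzC⟩ : C) ^ k ∈ N0 := by
    intro b
    rw [hcenk b, mul_inv_cancel_right]
    exact Subgroup.mem_subgroupOf.2 hzk
  have h5 := p5 _ hzkN hcenk
  rw [← hqh] at h5
  have h6 := hAQ.pow z hzC k
  rw [hz0, mul_zero] at h6
  have h7 : q (z ^ k) = qh (z ^ k) := h5.symm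
  rw [h7, h6]

end Pool.Agent.Work.MP_d3656f_al
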