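import Mathlib
import Pool.Agent.Work.MP_d3656f_al.A.Avg
import Pool.Agent.Work.MP_d3656f_al.A.Fam

/-!
# A/Kap : conjugations of the last two letters are quasi null

Let `n ≥ 2`, `p, q` the last two letters, `w ∈ sub2 n`, `κ : x_p ↦ w x_p w⁻¹`,
`x_q ↦ w x_q w⁻¹`, the other letters fixed (so `κ` fixes `w`). `C = centralizer {κ}`, `qh` with
`AQ C qh`; show `qh κ = 0`. Let (other letters fixed)
`A : x_p ↦ w x_p`, `B : x_p ↦ x_p w⁻¹`, `A' : x_q ↦ w x_q`, `B' : x_q ↦ x_q w⁻¹`. They commute with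
each other, fix `w`, and `κ = A B A' B'`; so they are in `C` and
`qh κ = qh A + qh B + qh A' + qh B'`.
`θ : x_q ↦ x_p x_q` is in `C` (`κ` acts on the subgroup generated by `x_p, x_q` by conjugation by
`w`, and `θ` fixes `w`). `θ⁻¹ A θ = A A'` (on `x_q`: `x_q ↦ x_p x_q ↦ w x_p x_q ↦ w x_p x_p⁻¹ x_q`;
on `x_p`: `x_p ↦ x_p ↦ w x_p ↦ w x_p`), so `qh A' = 0`. The swap `σ` of `x_p` and `x_q` is in `C`
and conjugates `A'` to `A`; the inversions `x_p ↦ x_p⁻¹` and `x_q ↦ x_q⁻¹` are in `C` and conjugate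
`A` to `B`, `A'` to `B'`. So all four values are `0`.
-/

set_option autoImplicit false

namespace Pool.Agent.Work.MP_d3656f_al

private theorem memC {n : ℕ} {w : FreeGroup (Fin n)} (hw : w ∈ sub2 n)
    {κ : MulAut (FreeGroup (Fin n))}
    (h1 : ∀ i : Fin n, (i : ℕ) + 2 < n → κ (FreeGroup.of i) = FreeGroup.of i)
    (h2 : ∀ i : Fin n, n ≤ (i : ℕ) + 2 → κ (FreeGroup.of i) = w * FreeGroup.of i * w⁻¹)
    {α : MulAut (FreeGroup (Fin n))}
    (hα : ∀ i : Fin n, (i : ℕ) + 2 < n → α (FreeGroup.of i) = FreeGroup.of i)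
    (hα2 : ∀ i : Fin n, n ≤ (i : ℕ) + 2 →
      κ (α (FreeGroup.of i)) = w * α (FreeGroup.of i) * w⁻¹) :
    α ∈ Subgroup.centralizer {κ} := by
  rw [Subgroup.mem_centralizer_singleton_iff]
  apply aut_ext
  intro i
  change α (κ (FreeGroup.of i)) = κ (α (FreeGroup.of i))
  by_cases hi : (i : ℕ) + 2 < n
  · rw [h1 i hi, hα i hi, h1 i hi]
  · have hi2 := not_lt.1 hi
    rw [hα2 i hi2, h2 i hi2, map_mul, map_mul, map_inv, fix_sub2 hα hw]

private theorem aut_mk {n : ℕ} (f g : Fin n → FreeGroup (Fin n))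
    (h1 : ∀ i, FreeGroup.lift g (f i) = FreeGroup.of i)
    (h2 : ∀ i, FreeGroup.lift f (g i) = FreeGroup.of i) :
    ∃ α : MulAut (FreeGroup (Fin n)), ∀ i, α (FreeGroup.of i) = f i := by
  refine ⟨MonoidHom.toMulEquiv (FreeGroup.lift f) (FreeGroup.lift g) ?_ ?_, fun i => ?_⟩
  · apply FreeGroup.ext_hom
    intro i
    change FreeGroup.lift g (FreeGroup.lift f (FreeGroup.of i)) = FreeGroup.of i
    rw [FreeGroup.lift_apply_of, h1]
  · apply FreeGroup.ext_hom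
    intro i
    change FreeGroup.lift f (FreeGroup.lift g (FreeGroup.of i)) = FreeGroup.of i
    rw [FreeGroup.lift_apply_of, h2]
  · change FreeGroup.lift f (FreeGroup.of i) = f i
    rw [FreeGroup.lift_apply_of]

private theorem half {n : ℕ} {w : FreeGroup (Fin n)} (hw : w ∈ sub2 n)
    {κ : MulAut (FreeGroup (Fin n))}
    (h1 : ∀ i : Fin n, (i : ℕ) + 2 < n → κ (FreeGroup.of i) = FreeGroup.of i)
    (h2 : ∀ i : Fin n, n ≤ (i : ℕ) + 2 → κ (FreeGroup.of i) = w * FreeGroup.of i * w⁻¹)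
    {qh : MulAut (FreeGroup (Fin n)) → ℝ} (hqh : AQ (Subgroup.centralizer {κ}) qh)
    {p q : Fin n} (hp : n ≤ (p : ℕ) + 2) (hq : n ≤ (q : ℕ) + 2) (hpq : p ≠ q)
    {Lq Rq : MulAut (FreeGroup (Fin n))}
    (hL1 : Lq (FreeGroup.of q) = w * FreeGroup.of q)
    (hL2 : ∀ k, k ≠ q → Lq (FreeGroup.of k) = FreeGroup.of k)
    (hR1 : Rq (FreeGroup.of q) = FreeGroup.of q * w⁻¹)
    (hR2 : ∀ k, k ≠ q → Rq (FreeGroup.of k) = FreeGroup.of k) :
    qh Lq = 0 ∧ qh Rq = 0 ∧ Lq ∈ Subgroup.centralizer {κ} ∧ Rq ∈ Subgroup.centralizer {κ} := by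
  classical
  have hnep : ∀ i : Fin n, (i : ℕ) + 2 < n → i ≠ p := by
    intro i hi h
    rw [h] at hi
    omega
  have hneq : ∀ i : Fin n, (i : ℕ) + 2 < n → i ≠ q := by
    intro i hi h
    rw [h] at hi
    omega
  have hκw : κ w = w := fix_sub2 h1 hw
  obtain ⟨L, hL⟩ := L_ex p hp
  obtain ⟨Lp, hLp⟩ : ∃ Lp, Lp = L ⟨w⁻¹, (sub2 n).inv_mem hw⟩ := ⟨_, rfl⟩
  have hP1 : Lp (FreeGroup.of p) = w * FreeGroup.of p := by
    rw [hLp, (hL _).1, inv_inv]
  have hP2 : ∀ k, k ≠ p → Lp (FreeGroup.of k) = FreeGroup.of k := by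
    intro k hk
    rw [hLp, (hL _).2 k hk]
  have hPw : Lp w = w := fix_sub2 (fun i hi => hP2 i (hnep i hi)) hw
  have hLw : Lq w = w := fix_sub2 (fun i hi => hL2 i (hneq i hi)) hw
  have hRw : Rq w = w := fix_sub2 (fun i hi => hR2 i (hneq i hi)) hw
  obtain ⟨θ, hθ⟩ := aut_mk (fun i => if i = q then FreeGroup.of p * FreeGroup.of q else
      FreeGroup.of i) (fun i => if i = q then (FreeGroup.of p)⁻¹ * FreeGroup.of q else
      FreeGroup.of i) (by
    intro i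
    by_cases hi : i = q
    · simp [hi, hpq]
    · simp [hi]) (by
    intro i
    by_cases hi : i = q
    · simp [hi, hpq]
    · simp [hi])
  have hθ1 : θ (FreeGroup.of q) = FreeGroup.of p * FreeGroup.of q := by
    rw [hθ, if_pos rfl]
  have hθ2 : ∀ k, k ≠ q → θ (FreeGroup.of k) = FreeGroup.of k := by
    intro k hk
    rw [hθ, if_neg hk]
  have hθw : θ w = w := fix_sub2 (fun i hi => hθ2 i (hneq i hi)) hw
  obtain ⟨ι, hι⟩ := aut_mk (fun i => if i = q then (FreeGroup.of q)⁻¹ else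
      FreeGroup.of i) (fun i => if i = q then (FreeGroup.of q)⁻¹ else
      FreeGroup.of i) (by
    intro i
    by_cases hi : i = q
    · simp [hi]
    · simp [hi]) (by
    intro i
    by_cases hi : i = q
    · simp [hi]
    · simp [hi])
  have hι1 : ι (FreeGroup.of q) = (FreeGroup.of q)⁻¹ := by
    rw [hι, if_pos rfl]
  have hι2 : ∀ k, k ≠ q → ι (FreeGroup.of k) = FreeGroup.of k := by
    intro k hk
    rw [hι, if_neg hk]
  have hιw : ι w = w := fix_sub2 (fun i hi => hι2 i (hneq i hi)) hw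
  have mP : Lp ∈ Subgroup.centralizer {κ} := by
    refine memC hw h1 h2 (fun i hi => hP2 i (hnep i hi)) fun i hi => ?_
    by_cases h : i = p
    · rw [h, hP1, map_mul, hκw, h2 p hp]
      group
    · rw [hP2 i h, h2 i hi]
  have mL : Lq ∈ Subgroup.centralizer {κ} := by
    refine memC hw h1 h2 (fun i hi => hL2 i (hneq i hi)) fun i hi => ?_
    by_cases h : i = q
    · rw [h, hL1, map_mul, hκw, h2 q hq]
      group
    · rw [hL2 i h, h2 i hi]
  have mR : Rq ∈ Subgroup.centralizer {κ} := by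
    refine memC hw h1 h2 (fun i hi => hR2 i (hneq i hi)) fun i hi => ?_
    by_cases h : i = q
    · rw [h, hR1, map_mul, map_inv, hκw, h2 q hq]
      group
    · rw [hR2 i h, h2 i hi]
  have mθ : θ ∈ Subgroup.centralizer {κ} := by
    refine memC hw h1 h2 (fun i hi => hθ2 i (hneq i hi)) fun i hi => ?_
    by_cases h : i = q
    · rw [h, hθ1, map_mul, h2 p hp, h2 q hq]
      group
    · rw [hθ2 i h, h2 i hi]
  have mι : ι ∈ Subgroup.centralizer {κ} := by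
    refine memC hw h1 h2 (fun i hi => hι2 i (hneq i hi)) fun i hi => ?_
    by_cases h : i = q
    · rw [h, hι1, map_inv, h2 q hq]
      group
    · rw [hι2 i h, h2 i hi]
  have e1 : θ * (Lp * Lq) = Lp * θ := by
    apply aut_ext
    intro k
    change θ (Lp (Lq (FreeGroup.of k))) = Lp (θ (FreeGroup.of k))
    by_cases hk : k = q
    · rw [hk, hL1, map_mul, hPw, hP2 q hpq.symm, map_mul, hθw, hθ1, map_mul, hP1,
        hP2 q hpq.symm]
      group
    · rw [hL2 k hk, hθ2 k hk]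
      by_cases hk2 : k = p
      · rw [hk2, hP1, map_mul, hθw, hθ2 p hpq]
      · rw [hP2 k hk2, hθ2 k hk]
  have e2 : Lp * Lq = Lq * Lp := by
    apply aut_ext
    intro k
    change Lp (Lq (FreeGroup.of k)) = Lq (Lp (FreeGroup.of k))
    by_cases hk : k = q
    · rw [hk, hL1, map_mul, hPw, hP2 q hpq.symm, hL1]
    · rw [hL2 k hk]
      by_cases hk2 : k = p
      · rw [hk2, hP1, map_mul, hLw, hL2 p hpq]
      · rw [hP2 k hk2, hL2 k hk]
  have e3 : ι * Lq = Rq * ι := by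
    apply aut_ext
    intro k
    change ι (Lq (FreeGroup.of k)) = Rq (ι (FreeGroup.of k))
    by_cases hk : k = q
    · rw [hk, hL1, map_mul, hιw, hι1, map_inv, hR1]
      group
    · rw [hL2 k hk, hι2 k hk, hR2 k hk]
  have f1 : Lp * Lq = θ⁻¹ * Lp * (θ⁻¹)⁻¹ := by
    rw [inv_inv, mul_assoc, ← e1, inv_mul_cancel_left]
  have f2 : Rq = ι * Lq * ι⁻¹ := by
    rw [e3, mul_inv_cancel_right]
  have g1 : qh Lp + qh Lq = qh Lp := by
    rw [← hqh.comm Lp mP Lq mL e2, f1]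
    exact hqh.conj Lp mP θ⁻¹ ((Subgroup.centralizer {κ}).inv_mem mθ)
  have g2 : qh Lq = 0 := by linarith
  refine ⟨g2, ?_, mL, mR⟩
  rw [f2, hqh.conj Lq mL ι mι, g2]

theorem kap_null {n : ℕ} (hn : 2 ≤ n) {w : FreeGroup (Fin n)} (hw : w ∈ sub2 n)
    (κ : MulAut (FreeGroup (Fin n)))
    (h1 : ∀ i : Fin n, (i : ℕ) + 2 < n → κ (FreeGroup.of i) = FreeGroup.of i)
    (h2 : ∀ i : Fin n, n ≤ (i : ℕ) + 2 → κ (FreeGroup.of i) = w * FreeGroup.of i * w⁻¹) :
    QuasiNull κ := by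
  refine qnull_of κ fun qh hqh => ?_
  obtain ⟨p, hp⟩ : ∃ p : Fin n, (p : ℕ) = n - 2 := ⟨⟨n - 2, by omega⟩, rfl⟩
  obtain ⟨q, hq⟩ : ∃ q : Fin n, (q : ℕ) = n - 1 := ⟨⟨n - 1, by omega⟩, rfl⟩
  have hp2 : n ≤ (p : ℕ) + 2 := by omega
  have hq2 : n ≤ (q : ℕ) + 2 := by omega
  have hpq : p ≠ q := by
    intro h
    rw [h] at hp
    omega
  have hcases : ∀ i : Fin n, (i : ℕ) + 2 < n ∨ i = p ∨ i = q := by
    intro i
    have hi := i.2
    by_cases h : (i : ℕ) + 2 < n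
    · exact Or.inl h
    · right
      by_cases h3 : (i : ℕ) = n - 2
      · left
        exact Fin.ext (by omega)
      · right
        exact Fin.ext (by omega)
  have hnep : ∀ i : Fin n, (i : ℕ) + 2 < n → i ≠ p := by
    intro i hi h
    rw [h] at hi
    omega
  have hneq : ∀ i : Fin n, (i : ℕ) + 2 < n → i ≠ q := by
    intro i hi h
    rw [h] at hi
    omega
  have hw' := (sub2 n).inv_mem hw
  obtain ⟨Lp, hLp⟩ := L_ex p hp2
  obtain ⟨Rp, hRp⟩ := R_ex p hp2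
  obtain ⟨Lq, hLq⟩ := L_ex q hq2
  obtain ⟨Rq, hRq⟩ := R_ex q hq2
  obtain ⟨A, hA⟩ : ∃ A, A = Lp ⟨w⁻¹, hw'⟩ := ⟨_, rfl⟩
  obtain ⟨B, hB⟩ : ∃ B, B = Rp ⟨w⁻¹, hw'⟩ := ⟨_, rfl⟩
  obtain ⟨A', hA'⟩ : ∃ A', A' = Lq ⟨w⁻¹, hw'⟩ := ⟨_, rfl⟩
  obtain ⟨B', hB'⟩ : ∃ B', B' = Rq ⟨w⁻¹, hw'⟩ := ⟨_, rfl⟩
  have A1 : A (FreeGroup.of p) = w * FreeGroup.of p := by rw [hA, (hLp _).1, inv_inv]
  have A2 : ∀ k, k ≠ p → A (FreeGroup.of k) = FreeGroup.of k := by
    intro k hk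
    rw [hA, (hLp _).2 k hk]
  have B1 : B (FreeGroup.of p) = FreeGroup.of p * w⁻¹ := by rw [hB, (hRp _).1]
  have B2 : ∀ k, k ≠ p → B (FreeGroup.of k) = FreeGroup.of k := by
    intro k hk
    rw [hB, (hRp _).2 k hk]
  have A'1 : A' (FreeGroup.of q) = w * FreeGroup.of q := by rw [hA', (hLq _).1, inv_inv]
  have A'2 : ∀ k, k ≠ q → A' (FreeGroup.of k) = FreeGroup.of k := by
    intro k hk
    rw [hA', (hLq _).2 k hk]
  have B'1 : B' (FreeGroup.of q) = FreeGroup.of q * w⁻¹ := by rw [hB', (hRq _).1]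
  have B'2 : ∀ k, k ≠ q → B' (FreeGroup.of k) = FreeGroup.of k := by
    intro k hk
    rw [hB', (hRq _).2 k hk]
  have Aw : A w = w := fix_sub2 (fun i hi => A2 i (hnep i hi)) hw
  have Bw : B w = w := fix_sub2 (fun i hi => B2 i (hnep i hi)) hw
  have A'w : A' w = w := fix_sub2 (fun i hi => A'2 i (hneq i hi)) hw
  have B'w : B' w = w := fix_sub2 (fun i hi => B'2 i (hneq i hi)) hw
  obtain ⟨zA', zB', mA', mB'⟩ := half hw h1 h2 hqh hp2 hq2 hpq A'1 A'2 B'1 B'2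
  obtain ⟨zA, zB, mA, mB⟩ := half hw h1 h2 hqh hq2 hp2 hpq.symm A1 A2 B1 B2
  have cAB : A * B = B * A := by
    apply aut_ext
    intro k
    change A (B (FreeGroup.of k)) = B (A (FreeGroup.of k))
    by_cases hk : k = p
    · rw [hk, B1, A1, map_mul, map_mul, map_inv, Aw, Bw, A1, B1, mul_assoc]
    · rw [B2 k hk, A2 k hk, B2 k hk]
  have cA'B' : A' * B' = B' * A' := by
    apply aut_ext
    intro k
    change A' (B' (FreeGroup.of k)) = B' (A' (FreeGroup.of k))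
    by_cases hk : k = q
    · rw [hk, B'1, A'1, map_mul, map_mul, map_inv, A'w, B'w, A'1, B'1, mul_assoc]
    · rw [B'2 k hk, A'2 k hk, B'2 k hk]
  have cross : ∀ X Y : MulAut (FreeGroup (Fin n)), X w = w → Y w = w →
      (∀ k, k ≠ p → X (FreeGroup.of k) = FreeGroup.of k) →
      (∀ k, k ≠ q → Y (FreeGroup.of k) = FreeGroup.of k) →
      Y (X (FreeGroup.of p)) = X (FreeGroup.of p) →
      X (Y (FreeGroup.of q)) = Y (FreeGroup.of q) → X * Y = Y * X := by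
    intro X Y hX hY X2 Y2 h3 h4
    apply aut_ext
    intro k
    change X (Y (FreeGroup.of k)) = Y (X (FreeGroup.of k))
    by_cases hk : k = p
    · rw [hk, h3, Y2 p hpq]
    · by_cases hk2 : k = q
      · rw [hk2, h4, X2 q hpq.symm]
      · rw [X2 k hk, Y2 k hk2, X2 k hk]
  have cAA' : A * A' = A' * A := cross A A' Aw A'w A2 A'2
    (by rw [A1, map_mul, A'w, A'2 p hpq]) (by rw [A'1, map_mul, Aw, A2 q hpq.symm])
  have cAB' : A * B' = B' * A := cross A B' Aw B'w A2 B'2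
    (by rw [A1, map_mul, B'w, B'2 p hpq]) (by rw [B'1, map_mul, map_inv, Aw, A2 q hpq.symm])
  have cBA' : B * A' = A' * B := cross B A' Bw A'w B2 A'2
    (by rw [B1, map_mul, map_inv, A'w, A'2 p hpq]) (by rw [A'1, map_mul, Bw, B2 q hpq.symm])
  have cBB' : B * B' = B' * B := cross B B' Bw B'w B2 B'2
    (by rw [B1, map_mul, map_inv, B'w, B'2 p hpq])
    (by rw [B'1, map_mul, map_inv, Bw, B2 q hpq.symm])
  have hκ : κ = (A * B) * (A' * B') := by
    apply aut_ext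
    intro k
    change κ (FreeGroup.of k) = A (B (A' (B' (FreeGroup.of k))))
    rcases hcases k with hk | hk | hk
    · rw [h1 k hk, B'2 k (hneq k hk), A'2 k (hneq k hk), B2 k (hnep k hk), A2 k (hnep k hk)]
    · rw [hk, h2 p hp2, B'2 p hpq, A'2 p hpq, B1, map_mul, map_inv, Aw, A1]
    · rw [hk]
      simp only [h2 q hq2, B'1, map_mul, map_inv, A'w, A'1, Bw, B2 q hpq.symm, Aw, A2 q hpq.symm]
  have c2 : (A * B) * (A' * B') = (A' * B') * (A * B) := by
    have k1 : Commute A A' := cAA'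
    have k2 : Commute A B' := cAB'
    have k3 : Commute B A' := cBA'
    have k4 : Commute B B' := cBB'
    exact (k1.mul_right k2).mul_left (k3.mul_right k4)
  have s0 : qh κ = qh ((A * B) * (A' * B')) := by rw [← hκ]
  rw [s0, hqh.comm _ (Subgroup.mul_mem _ mA mB) _ (Subgroup.mul_mem _ mA' mB') c2,
    hqh.comm A mA B mB cAB, hqh.comm A' mA' B' mB' cA'B', zA, zB, zA', zB']
  norm_num

end Pool.Agent.Work.MP_d3656f_al
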