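import Mathlib
import Pool.Agent.Work.MP_d3656f_al.A.Avg

/-!
# A/Lam : transvections are quasi null for `n ≥ 4`

Automorphisms of the free group act on the left. Let `i ≠ j`, `λ : x_i ↦ x_j x_i`, other basis
elements fixed, `C = centralizer {λ}`, `qh` with `AQ C qh`. We show `qh λ = 0` (`qnull_of`). Two
automorphisms are equal iff they agree on the basis. Letters `k, l` always are different from
`i, j`.
1. `u_k : x_k ↦ x_j x_k` is in `C`; `θ : x_l ↦ x_k x_l` (`k ≠ l`, possible as `n ≥ 4`) is in `C`;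
   `θ⁻¹ u_k θ = u_k u_l` (on `x_l`: `x_l ↦ x_k x_l ↦ x_j x_k x_l ↦ x_j x_k x_k⁻¹ x_l`), and
   `u_k, u_l` commute. So `qh u_k = qh u_k + qh u_l`, `qh u_l = 0`, for every `l`.
2. `v_l : x_l ↦ x_l x_j⁻¹` is in `C` and it is the conjugate of `u_l` by `ι_l : x_l ↦ x_l⁻¹`,
   `ι_l ∈ C`. So `qh v_l = 0`.
3. For `v` in the subgroup generated by the `x_m`, `m ≠ i`, let `K_v : x_i ↦ v x_i`,
   `x_m ↦ v x_m v⁻¹` (`m ≠ i`). `K_v ∈ C`: `λ` fixes `v` (`v` does not involve `x_i`); on `x_i`:
   `λ K_v x_i = v x_j x_i`, `K_v λ x_i = K_v (x_j x_i) = v x_j v⁻¹ v x_i`. `K` is a homomorphism.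
   It is an automorphism (`K_v K_{v⁻¹} = 1`). We only need `v = x_j^m` and `v = x_j^m x_k`.
4. `u_k K_v u_k⁻¹ = K_{u_k v}`; so `u_k^m K_{x_k} u_k^(-m) = K_{x_j^m x_k} = K_{x_j}^m K_{x_k}`. By
   `AQ.conj` `qh (K_{x_j}^m K_{x_k}) = qh K_{x_k}` for all `m`, so by `AQ.bdd`
   `N m qh (K_{x_j})` is bounded, `qh K_{x_j} = 0`.
5. `K_{x_j} = λ ∏_l (u_l v_l)` (product over the letters `l ≠ i, j`; all factors commute):
   `K_{x_j} : x_i ↦ x_j x_i`, `x_l ↦ x_j x_l x_j⁻¹`, `x_j ↦ x_j`. So `0 = qh K_{x_j} = qh λ`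
   (`AQ.comm`).
-/

set_option autoImplicit false

namespace Pool.Agent.Work.MP_d3656f_al

private theorem la_ext {n : ℕ} {α β : MulAut (FreeGroup (Fin n))}
    (h : ∀ m, α (FreeGroup.of m) = β (FreeGroup.of m)) : α = β := by
  have h1 : (α : FreeGroup (Fin n) →* FreeGroup (Fin n)) = β := FreeGroup.ext_hom _ _ fun m => h m
  exact MulEquiv.ext fun x => DFunLike.congr_fun h1 x

private theorem la_ex {n : ℕ} (f g : Fin n → FreeGroup (Fin n))
    (h1 : ∀ m, FreeGroup.lift f (g m) = FreeGroup.of m)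
    (h2 : ∀ m, FreeGroup.lift g (f m) = FreeGroup.of m) :
    ∃ φ : MulAut (FreeGroup (Fin n)), ∀ m, φ (FreeGroup.of m) = f m := by
  have e1 : (FreeGroup.lift f).comp (FreeGroup.lift g) = MonoidHom.id _ :=
    FreeGroup.ext_hom _ _ fun m => by simp [h1]
  have e2 : (FreeGroup.lift g).comp (FreeGroup.lift f) = MonoidHom.id _ :=
    FreeGroup.ext_hom _ _ fun m => by simp [h2]
  refine ⟨MonoidHom.toMulEquiv (FreeGroup.lift f) (FreeGroup.lift g) e2 e1, fun m => ?_⟩
  simp

private theorem la_tv {n : ℕ} {a b : Fin n} (hab : b ≠ a) :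
    ∃ u : MulAut (FreeGroup (Fin n)), u (FreeGroup.of a) = FreeGroup.of b * FreeGroup.of a ∧
      ∀ m, m ≠ a → u (FreeGroup.of m) = FreeGroup.of m := by
  obtain ⟨φ, hφ⟩ := la_ex (fun m => if m = a then FreeGroup.of b * FreeGroup.of a else FreeGroup.of m)
    (fun m => if m = a then (FreeGroup.of b)⁻¹ * FreeGroup.of a else FreeGroup.of m)
    (fun m => by
      by_cases hm : m = a
      · subst hm
        simp [hab]
      · simp [hm])
    (fun m => by
      by_cases hm : m = a
      · subst hm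
        simp [hab]
      · simp [hm])
  refine ⟨φ, ?_, fun m hm => ?_⟩
  · rw [hφ, if_pos rfl]
  · rw [hφ, if_neg hm]

private theorem la_inv {n : ℕ} (a : Fin n) :
    ∃ u : MulAut (FreeGroup (Fin n)), u (FreeGroup.of a) = (FreeGroup.of a)⁻¹ ∧
      ∀ m, m ≠ a → u (FreeGroup.of m) = FreeGroup.of m := by
  obtain ⟨φ, hφ⟩ := la_ex (fun m => if m = a then (FreeGroup.of a)⁻¹ else FreeGroup.of m)
    (fun m => if m = a then (FreeGroup.of a)⁻¹ else FreeGroup.of m)
    (fun m => by
      by_cases hm : m = a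
      · subst hm
        simp
      · simp [hm])
    (fun m => by
      by_cases hm : m = a
      · subst hm
        simp
      · simp [hm])
  refine ⟨φ, ?_, fun m hm => ?_⟩
  · rw [hφ, if_pos rfl]
  · rw [hφ, if_neg hm]

private theorem la_kap {n : ℕ} {i a : Fin n} (ha : a ≠ i) :
    ∃ u : MulAut (FreeGroup (Fin n)), u (FreeGroup.of i) = FreeGroup.of a * FreeGroup.of i ∧
      ∀ m, m ≠ i → u (FreeGroup.of m) = FreeGroup.of a * FreeGroup.of m * (FreeGroup.of a)⁻¹ := by
  obtain ⟨φ, hφ⟩ := la_ex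
    (fun m => if m = i then FreeGroup.of a * FreeGroup.of i
      else FreeGroup.of a * FreeGroup.of m * (FreeGroup.of a)⁻¹)
    (fun m => if m = i then (FreeGroup.of a)⁻¹ * FreeGroup.of i
      else (FreeGroup.of a)⁻¹ * FreeGroup.of m * FreeGroup.of a)
    (fun m => by
      by_cases hm : m = i
      · subst hm
        simp [ha]
      · simp [hm, ha]
        group)
    (fun m => by
      by_cases hm : m = i
      · subst hm
        simp [ha]
      · simp [hm, ha]
        group)
  refine ⟨φ, ?_, fun m hm => ?_⟩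
  · rw [hφ, if_pos rfl]
  · rw [hφ, if_neg hm]

private theorem la_W {n : ℕ} (j : Fin n) (s : Finset (Fin n)) (hj : j ∉ s) :
    ∃ u : MulAut (FreeGroup (Fin n)),
      (∀ m ∈ s, u (FreeGroup.of m) = FreeGroup.of j * FreeGroup.of m * (FreeGroup.of j)⁻¹) ∧
      ∀ m, m ∉ s → u (FreeGroup.of m) = FreeGroup.of m := by
  obtain ⟨φ, hφ⟩ := la_ex
    (fun m => if m ∈ s then FreeGroup.of j * FreeGroup.of m * (FreeGroup.of j)⁻¹ else FreeGroup.of m)
    (fun m => if m ∈ s then (FreeGroup.of j)⁻¹ * FreeGroup.of m * FreeGroup.of j else FreeGroup.of m)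
    (fun m => by
      by_cases hm : m ∈ s
      · simp [hm, hj]
        group
      · simp [hm])
    (fun m => by
      by_cases hm : m ∈ s
      · simp [hm, hj]
        group
      · simp [hm])
  refine ⟨φ, fun m hm => ?_, fun m hm => ?_⟩
  · rw [hφ, if_pos hm]
  · rw [hφ, if_neg hm]

private theorem la_letter {n : ℕ} (hn : 4 ≤ n) (a b c : Fin n) : ∃ k, k ≠ a ∧ k ≠ b ∧ k ≠ c := by
  by_contra h
  push Not at h
  have h1 : (Finset.univ : Finset (Fin n)) ⊆ {a, b, c} := fun k _ => by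
    simp only [Finset.mem_insert, Finset.mem_singleton]
    by_contra hk
    push Not at hk
    exact hk.2.2 (h k hk.1 hk.2.1)
  have h2 := Finset.card_le_card h1
  have h3 : ({a, b, c} : Finset (Fin n)).card ≤ 3 := Finset.card_le_three
  rw [Finset.card_univ, Fintype.card_fin] at h2
  omega

private theorem la_arch {a C : ℝ} {N : ℕ} (hN : 0 < N) (hC : ∀ k : ℕ, |(N * k : ℕ) * a| ≤ C) : a = 0 := by
  by_contra ha
  have ha' : 0 < |a| := abs_pos.2 ha
  obtain ⟨k, hk⟩ := exists_nat_gt (C / |a|)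
  have h1 := hC k
  rw [abs_mul, Nat.abs_cast] at h1
  rw [div_lt_iff₀ ha'] at hk
  have h2 : (k : ℝ) ≤ (N * k : ℕ) := by
    exact_mod_cast Nat.le_mul_of_pos_left k hN
  nlinarith

theorem lam_null {n : ℕ} (hn : 4 ≤ n) {i j : Fin n} (hij : i ≠ j)
    (α : MulAut (FreeGroup (Fin n))) (hi : α (FreeGroup.of i) = FreeGroup.of j * FreeGroup.of i)
    (ho : ∀ k, k ≠ i → α (FreeGroup.of k) = FreeGroup.of k) : QuasiNull α := by
  classical
  refine qnull_of α fun qh hA => ?_
  set C : Subgroup (MulAut (FreeGroup (Fin n))) := Subgroup.centralizer {α} with hC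
  have memC : ∀ β : MulAut (FreeGroup (Fin n)),
      (∀ m, α (β (FreeGroup.of m)) = β (α (FreeGroup.of m))) → β ∈ C := by
    intro β hβ
    rw [hC, Subgroup.mem_centralizer_singleton_iff]
    have h1 : α * β = β * α := la_ext hβ
    first
      | exact h1
      | exact h1.symm
  have hαC : α ∈ C := memC α fun m => rfl
  have hji : j ≠ i := hij.symm
  -- automorphisms which fix `x_i` and `x_j` and map the other letters to words without `x_i`
  have memC' : ∀ β : MulAut (FreeGroup (Fin n)), β (FreeGroup.of i) = FreeGroup.of i →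
      β (FreeGroup.of j) = FreeGroup.of j →
      (∀ m, m ≠ i → α (β (FreeGroup.of m)) = β (FreeGroup.of m)) → β ∈ C := by
    intro β h1 h2 h3
    refine memC β fun m => ?_
    by_cases hm : m = i
    · subst hm
      rw [h1, hi, map_mul, h1, h2]
    · rw [h3 m hm, ho m hm]
  -- step 1
  have hu : ∀ l, l ≠ i → l ≠ j → ∀ u : MulAut (FreeGroup (Fin n)),
      u (FreeGroup.of l) = FreeGroup.of j * FreeGroup.of l →
      (∀ m, m ≠ l → u (FreeGroup.of m) = FreeGroup.of m) → u ∈ C := by
    intro l hli hlj u hu1 hu2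
    refine memC' u (hu2 i hli.symm) (hu2 j hlj.symm) fun m hm => ?_
    by_cases hml : m = l
    · subst hml
      rw [hu1, map_mul, ho j hji, ho m hm]
    · rw [hu2 m hml, ho m hm]
  have hu0 : ∀ l, l ≠ i → l ≠ j → ∀ u : MulAut (FreeGroup (Fin n)),
      u (FreeGroup.of l) = FreeGroup.of j * FreeGroup.of l →
      (∀ m, m ≠ l → u (FreeGroup.of m) = FreeGroup.of m) → qh u = 0 := by
    intro l hli hlj u hu1 hu2
    obtain ⟨k, hki, hkj, hkl⟩ := la_letter hn i j l
    obtain ⟨uk, hk1, hk2⟩ := la_tv (a := k) (b := j) hkj.symm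
    obtain ⟨θ, ht1, ht2⟩ := la_tv (a := l) (b := k) hkl
    have huC := hu l hli hlj u hu1 hu2
    have hkC := hu k hki hkj uk hk1 hk2
    have htC : θ ∈ C := by
      refine memC' θ (ht2 i hli.symm) (ht2 j hlj.symm) fun m hm => ?_
      by_cases hml : m = l
      · subst hml
        rw [ht1, map_mul, ho k hki, ho m hm]
      · rw [ht2 m hml, ho m hm]
    have hcom : uk * u = u * uk := by
      refine la_ext fun m => ?_
      rw [MulAut.mul_apply, MulAut.mul_apply]
      by_cases hml : m = l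
      · subst hml
        rw [hu1, map_mul, hk2 j hkj.symm, hk2 m hkl.symm, hu1]
      · by_cases hmk : m = k
        · subst hmk
          rw [hu2 m hml, hk1, map_mul, hu2 j hlj.symm, hu2 m hml]
        · rw [hu2 m hml, hk2 m hmk, hu2 m hml]
    have hrel : θ⁻¹ * uk * (θ⁻¹)⁻¹ = uk * u := by
      rw [inv_inv, mul_assoc, inv_mul_eq_iff_eq_mul]
      refine la_ext fun m => ?_
      rw [MulAut.mul_apply, MulAut.mul_apply, MulAut.mul_apply]
      by_cases hml : m = l
      · subst hml
        rw [ht1, hu1, map_mul, map_mul, map_mul, hk1, hk2 j hkj.symm, hk2 m hkl.symm, ht2 j hlj.symm, ht1,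
          mul_assoc]
      · by_cases hmk : m = k
        · subst hmk
          rw [ht2 m hml, hk1, hu2 m hml, hk1, map_mul, ht2 j hlj.symm, ht2 m hml]
        · rw [ht2 m hml, hk2 m hmk, hu2 m hml, hk2 m hmk, ht2 m hml]
    have h1 := hA.conj uk hkC θ⁻¹ (C.inv_mem htC)
    rw [hrel, hA.comm uk hkC u huC hcom] at h1
    linarith
  -- step 2
  have hw0 : ∀ l, l ≠ i → l ≠ j → ∀ w : MulAut (FreeGroup (Fin n)),
      w (FreeGroup.of l) = FreeGroup.of j * FreeGroup.of l * (FreeGroup.of j)⁻¹ →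
      (∀ m, m ≠ l → w (FreeGroup.of m) = FreeGroup.of m) → w ∈ C ∧ qh w = 0 := by
    intro l hli hlj w hw1 hw2
    obtain ⟨u, hu1, hu2⟩ := la_tv (a := l) (b := j) hlj.symm
    obtain ⟨ι, hι1, hι2⟩ := la_inv l
    have huC := hu l hli hlj u hu1 hu2
    have hιC : ι ∈ C := by
      refine memC' ι (hι2 i hli.symm) (hι2 j hlj.symm) fun m hm => ?_
      by_cases hml : m = l
      · subst hml
        rw [hι1, map_inv, ho m hm]
      · rw [hι2 m hml, ho m hm]
    have hwC : w ∈ C := by
      refine memC' w (hw2 i hli.symm) (hw2 j hlj.symm) fun m hm => ?_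
      by_cases hml : m = l
      · subst hml
        rw [hw1, map_mul, map_mul, map_inv, ho j hji, ho m hm]
      · rw [hw2 m hml, ho m hm]
    obtain ⟨v, hv⟩ : ∃ v : MulAut (FreeGroup (Fin n)), v = ι * u * ι⁻¹ := ⟨_, rfl⟩
    have hvC : v ∈ C := by
      rw [hv]
      exact C.mul_mem (C.mul_mem hιC huC) (C.inv_mem hιC)
    have hιι : ι⁻¹ = ι := by
      rw [inv_eq_iff_mul_eq_one]
      refine la_ext fun m => ?_
      rw [MulAut.mul_apply, MulAut.one_apply]
      by_cases hml : m = l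
      · subst hml
        rw [hι1, map_inv, hι1, inv_inv]
      · rw [hι2 m hml, hι2 m hml]
    have hv1 : v (FreeGroup.of l) = FreeGroup.of l * (FreeGroup.of j)⁻¹ := by
      rw [hv, hιι, MulAut.mul_apply, MulAut.mul_apply, hι1, map_inv, hu1, map_inv, map_mul, hι1,
        hι2 j hlj.symm, mul_inv_rev, inv_inv]
    have hv2 : ∀ m, m ≠ l → v (FreeGroup.of m) = FreeGroup.of m := by
      intro m hml
      rw [hv, hιι, MulAut.mul_apply, MulAut.mul_apply, hι2 m hml, hu2 m hml, hι2 m hml]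
    have hq1 : qh v = 0 := by
      rw [hv, hA.conj u huC ι hιC]
      exact hu0 l hli hlj u hu1 hu2
    have hwe : w = u * v := by
      refine la_ext fun m => ?_
      rw [MulAut.mul_apply]
      by_cases hml : m = l
      · subst hml
        rw [hw1, hv1, map_mul, map_inv, hu1, hu2 j hlj.symm]
      · rw [hw2 m hml, hv2 m hml, hu2 m hml]
    have hcom : u * v = v * u := by
      refine la_ext fun m => ?_
      rw [MulAut.mul_apply, MulAut.mul_apply]
      by_cases hml : m = l
      · subst hml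
        rw [hv1, hu1, map_mul, map_inv, hu1, hu2 j hlj.symm, map_mul, hv1, hv2 j hlj.symm, mul_assoc]
      · rw [hv2 m hml, hu2 m hml, hv2 m hml]
    refine ⟨hwC, ?_⟩
    rw [hwe, hA.comm u huC v hvC hcom, hq1, hu0 l hli hlj u hu1 hu2, add_zero]
  -- products
  have hW : ∀ s : Finset (Fin n), i ∉ s → j ∉ s → ∀ w : MulAut (FreeGroup (Fin n)),
      (∀ m ∈ s, w (FreeGroup.of m) = FreeGroup.of j * FreeGroup.of m * (FreeGroup.of j)⁻¹) →
      (∀ m, m ∉ s → w (FreeGroup.of m) = FreeGroup.of m) → w ∈ C ∧ qh w = 0 := by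
    intro s
    induction s using Finset.induction_on with
    | empty =>
      intro _ _ w _ hw2
      have h1 : w = 1 := la_ext fun m => by
        rw [hw2 m (Finset.notMem_empty m), MulAut.one_apply]
      rw [h1]
      refine ⟨C.one_mem, ?_⟩
      have h2 := hA.pow 1 C.one_mem 2
      rw [one_pow] at h2
      push_cast at h2
      linarith
    | insert l s hls ih =>
      intro his hjs w hw1 hw2
      rw [Finset.mem_insert, not_or] at his hjs
      obtain ⟨wl, hl1, hl2⟩ := la_W j {l} (by simpa using hjs.1)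
      obtain ⟨ws, hs1, hs2⟩ := la_W j s hjs.2
      have hl2' : ∀ m, m ≠ l → wl (FreeGroup.of m) = FreeGroup.of m := fun m hm =>
        hl2 m (by simpa using hm)
      have hl1' := hl1 l (Finset.mem_singleton_self l)
      obtain ⟨hlC, hl0⟩ := hw0 l (Ne.symm his.1) (Ne.symm hjs.1) wl hl1' hl2'
      obtain ⟨hsC, hs0⟩ := ih his.2 hjs.2 ws hs1 hs2
      have hcom : wl * ws = ws * wl := by
        refine la_ext fun m => ?_
        rw [MulAut.mul_apply, MulAut.mul_apply]
        by_cases hml : m = l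
        · subst hml
          rw [hs2 m hls, hl1', map_mul, map_mul, map_inv, hs2 j hjs.2, hs2 m hls]
        · by_cases hms : m ∈ s
          · rw [hs1 m hms, hl2' m hml, map_mul, map_mul, map_inv, hl2' j hjs.1, hl2' m hml, hs1 m hms]
          · rw [hs2 m hms, hl2' m hml, hs2 m hms]
      have hwe : w = wl * ws := by
        refine la_ext fun m => ?_
        rw [MulAut.mul_apply]
        by_cases hml : m = l
        · subst hml
          rw [hw1 m (Finset.mem_insert_self _ _), hs2 m hls, hl1']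
        · by_cases hms : m ∈ s
          · rw [hw1 m (Finset.mem_insert_of_mem hms), hs1 m hms, map_mul, map_mul, map_inv, hl2' j hjs.1,
              hl2' m hml]
          · rw [hw2 m (by simp [hml, hms]), hs2 m hms, hl2' m hml]
      rw [hwe]
      exact ⟨C.mul_mem hlC hsC, by rw [hA.comm wl hlC ws hsC hcom, hl0, hs0, add_zero]⟩
  -- steps 3 and 4
  obtain ⟨k, hki, hkj, -⟩ := la_letter hn i j j
  obtain ⟨uk, hk1, hk2⟩ := la_tv (a := k) (b := j) hkj.symm
  obtain ⟨κ, hκ1, hκ2⟩ := la_kap (i := i) (a := j) hji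
  obtain ⟨ρ, hρ1, hρ2⟩ := la_kap (i := i) (a := k) hki
  have hkC := hu k hki hkj uk hk1 hk2
  have hκC : κ ∈ C := by
    refine memC κ fun m => ?_
    by_cases hm : m = i
    · subst hm
      rw [hκ1, hi, map_mul, map_mul, hκ1, hi, ho j hji, hκ2 j hji, mul_inv_cancel_right]
    · rw [hκ2 m hm, ho m hm, map_mul, map_mul, map_inv, ho j hji, ho m hm, hκ2 m hm]
  have hρC : ρ ∈ C := by
    refine memC ρ fun m => ?_
    by_cases hm : m = i
    · subst hm
      rw [hρ1, hi, map_mul, map_mul, hρ1, hi, ho k hki, hρ2 j hji]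
      group
    · rw [hρ2 m hm, ho m hm, map_mul, map_mul, map_inv, ho k hki, ho m hm, hρ2 m hm]
  have hr1 : uk * κ = κ * uk := by
    refine la_ext fun m => ?_
    rw [MulAut.mul_apply, MulAut.mul_apply]
    by_cases hm : m = i
    · subst hm
      rw [hκ1, hk2 m hki.symm, map_mul, hk2 j hkj.symm, hk2 m hki.symm, hκ1]
    · by_cases hmk : m = k
      · subst hmk
        rw [hκ2 m hm, map_mul, map_mul, map_inv, hk2 j hkj.symm, hk1, map_mul, hκ2 j hji, hκ2 m hm]
        group
      · rw [hκ2 m hm, hk2 m hmk, map_mul, map_mul, map_inv, hk2 j hkj.symm, hk2 m hmk, hκ2 m hm]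
  have hr2 : uk * ρ = κ * ρ * uk := by
    refine la_ext fun m => ?_
    rw [MulAut.mul_apply, MulAut.mul_apply, MulAut.mul_apply]
    by_cases hm : m = i
    · subst hm
      rw [hρ1, hk2 m hki.symm, hρ1, map_mul, map_mul, hk1, hk2 m hki.symm, hκ1, hκ2 k hki]
      group
    · by_cases hmk : m = k
      · subst hmk
        rw [hρ2 m hm, mul_inv_cancel_right, hk1, map_mul, hρ2 j hji, hρ2 m hm, mul_inv_cancel_right,
          inv_mul_cancel_right, map_mul, hκ2 m hm, hκ2 j hji]
        group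
      · rw [hρ2 m hm, hk2 m hmk, map_mul, map_mul, map_inv, hk1, hk2 m hmk, hρ2 m hm, map_mul, map_mul,
          map_inv, hκ2 k hki, hκ2 m hm]
        group
  have hr3 : ∀ m : ℕ, uk ^ m * ρ * (uk ^ m)⁻¹ = κ ^ m * ρ := by
    intro m
    induction m with
    | zero => simp
    | succ m ih =>
      have hcm : uk * κ ^ m = κ ^ m * uk := ((show Commute uk κ from hr1).pow_right m)
      calc uk ^ (m + 1) * ρ * (uk ^ (m + 1))⁻¹ = uk * (uk ^ m * ρ * (uk ^ m)⁻¹) * uk⁻¹ := by
            rw [pow_succ']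
            group
        _ = uk * (κ ^ m * ρ) * uk⁻¹ := by rw [ih]
        _ = (uk * κ ^ m) * ρ * uk⁻¹ := by group
        _ = κ ^ m * (uk * ρ) * uk⁻¹ := by
            rw [hcm]
            group
        _ = κ ^ (m + 1) * ρ := by
            rw [hr2, pow_succ]
            group
  have hκ0 : qh κ = 0 := by
    obtain ⟨N, hN, hbd⟩ := hA.bdd
    obtain ⟨B, hB⟩ := hbd κ hκC ρ hρC
    refine la_arch hN (C := B + |qh ρ|) fun m => ?_
    have h1 := hB m
    have h2 : qh (κ ^ (N * m) * ρ) = qh ρ := by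
      rw [← hr3, hA.conj ρ hρC _ (C.pow_mem hkC _)]
    rw [h2] at h1
    have h3 := abs_sub_abs_le_abs_sub (((N * m : ℕ) : ℝ) * qh κ) (qh ρ)
    rw [abs_sub_comm] at h1
    linarith
  -- step 5
  obtain ⟨w, hw1, hw2⟩ := la_W j ((Finset.univ.erase i).erase j) (by simp)
  obtain ⟨hwC, hw0⟩ := hW _ (by simp) (by simp) w hw1 hw2
  have hwm : ∀ m, m ≠ i → m ≠ j →
      w (FreeGroup.of m) = FreeGroup.of j * FreeGroup.of m * (FreeGroup.of j)⁻¹ := fun m h1 h2 =>
    hw1 m (by simp [h1, h2])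
  have hwi : w (FreeGroup.of i) = FreeGroup.of i := hw2 i (by simp)
  have hwj : w (FreeGroup.of j) = FreeGroup.of j := hw2 j (by simp)
  have hκe : κ = α * w := by
    refine la_ext fun m => ?_
    rw [MulAut.mul_apply]
    by_cases hm : m = i
    · subst hm
      rw [hwi, hκ1, hi]
    · by_cases hmj : m = j
      · subst hmj
        rw [hwj, hκ2 m hm, ho m hm, mul_inv_cancel_right]
      · rw [hwm m hm hmj, hκ2 m hm, map_mul, map_mul, map_inv, ho j hji, ho m hm]
  have hcomw : α * w = w * α := by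
    have h1 := hwC
    rw [hC, Subgroup.mem_centralizer_singleton_iff] at h1
    first
      | exact h1
      | exact h1.symm
  have h1 := hA.comm α hαC w hwC hcomw
  rw [← hκe, hκ0, hw0, add_zero] at h1
  exact h1.symm

end Pool.Agent.Work.MP_d3656f_al
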