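import Mathlib
import Pool.Agent.Work.MP_d3656f_al.A.Lam
import Pool.Agent.Work.MP_d3656f_al.A.Kap
import Pool.Agent.Work.MP_d3656f_al.A.Fam

/-!
# A/EndA : the images of the left and right multiplications are finite

`P = sub2 n`, `p, q` the last two letters. Hypotheses: quasi null elements have images of finite
order (`h1`), torsion subgroups of the target are finite (`h2`).
1. Let `L_p, R_p, L_q, R_q` be from `L_ex`, `R_ex`. Their images commute with each other
   (`aut_ext`, `fix_sub2`). `κ w = L_p w R_p w L_q w R_q w` is a homomorphism `P → Aut F_n`,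
   `κ w : x_i ↦ w⁻¹ x_i w` for `i ∈ {p,q}`. All `φ (κ w)` have finite order (`kap_null` for `w⁻¹`,
   `h1`), so by `h2` the group `φ (κ P)` is finite and `R = ker (φ ∘ κ)` has finite index in `P`.
2. Let `L` be as in the statement (`L = L_i`, `i ∈ {p, q}`), `a = φ ∘ L : P → Γ`. For `w, u ∈ P`:
   `κ w L u (κ w)⁻¹ = L (w u w⁻¹)`, so for `w ∈ R`: `a (w u w⁻¹) = a u`, i.e. `a w` commutes with
   `a u`. So `a R` is contained in the centre of `a P`, which therefore has finite index in `a P`.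
3. `a (x_j)`, `j + 2 < n`, has finite order: `L (x_j)⁻¹ = L (x_j⁻¹) : x_i ↦ x_j x_i`, `lam_null`, `h1`.
   By `transferCenterPow` `y ↦ y^m` (`m` the index of the centre) is a homomorphism from `a P` to its
   centre. `a P` is generated by the torsion elements `a (x_j)`, so the image of this homomorphism is
   an abelian group generated by torsion elements, hence torsion; so every `y ∈ a P` has finite
   order, and `a P` is finite by `h2`.
4. The same for `R_i`: `κ w R u (κ w)⁻¹ = R (w u w⁻¹)`. `R (x_j) : x_i ↦ x_i x_j` is the conjugate by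
   the inversion `ι : x_i ↦ x_i⁻¹` of `L (x_j) : x_i ↦ x_j⁻¹ x_i`, so `φ (R x_j)` has finite order
   too. (Or: `R w = ι (L w) ι⁻¹` for all `w`, so the image of `φ ∘ R` is a conjugate of the image of
   `φ ∘ L`.)
-/

set_option autoImplicit false

namespace Pool.Agent.Work.MP_d3656f_al

private theorem last_cases {n : ℕ} (hn : 2 ≤ n) : ∃ p q : Fin n, n ≤ (p : ℕ) + 2 ∧ n ≤ (q : ℕ) + 2 ∧
    p ≠ q ∧ (∀ i : Fin n, (i : ℕ) + 2 < n ∨ i = p ∨ i = q) ∧
    (∀ i : Fin n, (i : ℕ) + 2 < n → i ≠ p) ∧ ∀ i : Fin n, (i : ℕ) + 2 < n → i ≠ q := by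
  refine ⟨⟨n - 2, by omega⟩, ⟨n - 1, by omega⟩, ?_, ?_, ?_, ?_, ?_, ?_⟩
  · change n ≤ n - 2 + 2
    omega
  · change n ≤ n - 1 + 2
    omega
  · intro h
    have := congrArg Fin.val h
    change n - 2 = n - 1 at this
    omega
  · intro i
    have hi := i.2
    by_cases h : (i : ℕ) + 2 < n
    · exact Or.inl h
    · right
      by_cases h3 : (i : ℕ) = n - 2
      · left
        exact Fin.ext h3
      · right
        exact Fin.ext (by change (i : ℕ) = n - 1; omega)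
  · intro i hi h
    have := congrArg Fin.val h
    change (i : ℕ) = n - 2 at this
    omega
  · intro i hi h
    have := congrArg Fin.val h
    change (i : ℕ) = n - 1 at this
    omega

private theorem kap_ex {n : ℕ} (hn : 2 ≤ n) : ∃ κ : sub2 n →* MulAut (FreeGroup (Fin n)),
    ∀ w : sub2 n, (∀ i : Fin n, (i : ℕ) + 2 < n → κ w (FreeGroup.of i) = FreeGroup.of i) ∧
      ∀ i : Fin n, n ≤ (i : ℕ) + 2 →
        κ w (FreeGroup.of i) = (w : FreeGroup (Fin n))⁻¹ * FreeGroup.of i * w := by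
  obtain ⟨p, q, hp2, hq2, hpq, hcases, hnep, hneq⟩ := last_cases hn
  obtain ⟨Lp, hLp⟩ := L_ex p hp2
  obtain ⟨Rp, hRp⟩ := R_ex p hp2
  obtain ⟨Lq, hLq⟩ := L_ex q hq2
  obtain ⟨Rq, hRq⟩ := R_ex q hq2
  have hK : ∀ w : sub2 n, (∀ i : Fin n, (i : ℕ) + 2 < n →
      (Lp w * Rp w * Lq w * Rq w) (FreeGroup.of i) = FreeGroup.of i) ∧
      ∀ i : Fin n, n ≤ (i : ℕ) + 2 → (Lp w * Rp w * Lq w * Rq w) (FreeGroup.of i) =
        (w : FreeGroup (Fin n))⁻¹ * FreeGroup.of i * w := by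
    intro w
    have e0 : ∀ x, (Lp w * Rp w * Lq w * Rq w) x = Lp w (Rp w (Lq w (Rq w x))) := fun x => rfl
    have hA3 : ∀ {x : FreeGroup (Fin n)}, x ∈ sub2 n → Lp w x = x := fun hx =>
      fix_sub2 (fun i hi => (hLp w).2 i (hnep i hi)) hx
    have hB3 : ∀ {x : FreeGroup (Fin n)}, x ∈ sub2 n → Rp w x = x := fun hx =>
      fix_sub2 (fun i hi => (hRp w).2 i (hnep i hi)) hx
    have hC3 : ∀ {x : FreeGroup (Fin n)}, x ∈ sub2 n → Lq w x = x := fun hx =>
      fix_sub2 (fun i hi => (hLq w).2 i (hneq i hi)) hx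
    have mi : (w : FreeGroup (Fin n))⁻¹ ∈ sub2 n := (sub2 n).inv_mem w.2
    refine ⟨fun i hi => ?_, fun i hi => ?_⟩
    · rw [e0, (hRq w).2 i (hneq i hi), (hLq w).2 i (hneq i hi), (hRp w).2 i (hnep i hi),
        (hLp w).2 i (hnep i hi)]
    · rw [e0]
      rcases hcases i with h | h | h
      · omega
      · rw [h, (hRq w).2 p hpq, (hLq w).2 p hpq, (hRp w).1, map_mul, (hLp w).1, hA3 w.2]
      · rw [h, (hRq w).1, map_mul (Lq w), (hLq w).1, hC3 w.2, map_mul (Rp w), map_mul (Rp w), hB3 mi,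
          (hRp w).2 q hpq.symm, hB3 w.2, map_mul (Lp w), map_mul (Lp w), hA3 mi,
          (hLp w).2 q hpq.symm, hA3 w.2]
  refine ⟨MonoidHom.mk' (fun w => Lp w * Rp w * Lq w * Rq w) fun w w' => ?_, hK⟩
  apply aut_ext
  intro i
  have e1 : ((Lp w * Rp w * Lq w * Rq w) * (Lp w' * Rp w' * Lq w' * Rq w')) (FreeGroup.of i) =
      (Lp w * Rp w * Lq w * Rq w) ((Lp w' * Rp w' * Lq w' * Rq w') (FreeGroup.of i)) := rfl
  rw [e1]
  have hfix : ∀ {x : FreeGroup (Fin n)}, x ∈ sub2 n → (Lp w * Rp w * Lq w * Rq w) x = x :=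
    fun hx => fix_sub2 (hK w).1 hx
  by_cases hi : (i : ℕ) + 2 < n
  · rw [(hK _).1 i hi, (hK _).1 i hi, (hK _).1 i hi]
  · have hi2 : n ≤ (i : ℕ) + 2 := not_lt.1 hi
    rw [(hK _).2 i hi2, (hK w').2 i hi2, map_mul, map_mul, hfix ((sub2 n).inv_mem w'.2),
      (hK w).2 i hi2, hfix w'.2, Subgroup.coe_mul, mul_inv_rev]
    group

private theorem inv_ex {n : ℕ} (i : Fin n) : ∃ ι : MulAut (FreeGroup (Fin n)),
    ι (FreeGroup.of i) = (FreeGroup.of i)⁻¹ ∧ (∀ k, k ≠ i → ι (FreeGroup.of k) = FreeGroup.of k) ∧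
      ι * ι = 1 := by
  classical
  set f : FreeGroup (Fin n) →* FreeGroup (Fin n) :=
    FreeGroup.lift fun k => if k = i then (FreeGroup.of i)⁻¹ else FreeGroup.of k with hf
  have f1 : f (FreeGroup.of i) = (FreeGroup.of i)⁻¹ := by
    rw [hf, FreeGroup.lift_apply_of, if_pos rfl]
  have f2 : ∀ k, k ≠ i → f (FreeGroup.of k) = FreeGroup.of k := by
    intro k hk
    rw [hf, FreeGroup.lift_apply_of, if_neg hk]
  have hff : f.comp f = MonoidHom.id _ := by
    apply FreeGroup.ext_hom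
    intro k
    by_cases hk : k = i
    · rw [hk, MonoidHom.comp_apply, f1, map_inv, f1, inv_inv]
      rfl
    · rw [MonoidHom.comp_apply, f2 k hk, f2 k hk]
      rfl
  refine ⟨MonoidHom.toMulEquiv f f hff hff, f1, f2, ?_⟩
  apply MulEquiv.ext
  intro x
  exact DFunLike.congr_fun hff x

private theorem tors_range {P Γ : Type} [Group P] [Group Γ] (a : P →* Γ) (R : Subgroup P)
    (hR : R.index ≠ 0) (hc : ∀ w ∈ R, ∀ u : P, a w * a u = a u * a w) (S : Set P)
    (hS : Subgroup.closure S = ⊤) (ht : ∀ x ∈ S, ∃ k : ℕ, 0 < k ∧ (a x) ^ k = 1) :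
    ∀ y : P, ∃ k : ℕ, 0 < k ∧ (a y) ^ k = 1 := by
  have hsurj : Function.Surjective a.rangeRestrict := a.rangeRestrict_surjective
  have hRle : R ≤ (Subgroup.center a.range).comap a.rangeRestrict := by
    intro w hw
    rw [Subgroup.mem_comap, Subgroup.mem_center_iff]
    rintro ⟨_, u, rfl⟩
    apply Subtype.ext
    exact (hc w hw u).symm
  have hidx : (Subgroup.center a.range).index ≠ 0 := by
    rw [← Subgroup.index_comap_of_surjective _ hsurj]
    intro h0
    have h00 := Subgroup.index_dvd_of_le hRle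
    rw [h0] at h00
    exact hR (Nat.eq_zero_of_zero_dvd h00)
  haveI : (Subgroup.center a.range).FiniteIndex := ⟨hidx⟩
  set m := (Subgroup.center a.range).index with hm
  have hF : ∀ g : a.range, ((MonoidHom.transferCenterPow a.range g : a.range)) = g ^ m :=
    fun g => MonoidHom.transferCenterPow_apply g
  have hmem : ∀ y : P, y ∈ Subgroup.closure S := fun y => by rw [hS]; exact Subgroup.mem_top y
  have key : ∀ y : P, ∃ k : ℕ, 0 < k ∧ ((a.rangeRestrict y) ^ m) ^ k = 1 := by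
    intro y
    induction hmem y using Subgroup.closure_induction with
    | mem x hx =>
      obtain ⟨k, hk, h1⟩ := ht x hx
      refine ⟨k, hk, ?_⟩
      rw [← pow_mul, mul_comm, pow_mul]
      have h2 : (a.rangeRestrict x) ^ k = 1 := Subtype.ext h1
      rw [h2, one_pow]
    | one => exact ⟨1, one_pos, by rw [map_one, one_pow, one_pow]⟩
    | mul x y _ _ hx hy =>
      obtain ⟨k, hk, h1⟩ := hx
      obtain ⟨l, hl, h2⟩ := hy
      refine ⟨k * l, Nat.mul_pos hk hl, ?_⟩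
      have h3 : (a.rangeRestrict (x * y)) ^ m = (a.rangeRestrict x) ^ m * (a.rangeRestrict y) ^ m := by
        rw [← hF, ← hF, ← hF, map_mul, map_mul]
        rfl
      have h4 : Commute ((a.rangeRestrict x) ^ m) ((a.rangeRestrict y) ^ m) := by
        have h5 := (MonoidHom.transferCenterPow a.range (a.rangeRestrict x)).2
        rw [Subgroup.mem_center_iff] at h5
        have h6 := h5 ((a.rangeRestrict y) ^ m)
        rw [hF] at h6
        exact h6.symm
      rw [h3, h4.mul_pow, pow_mul, h1, one_pow, mul_comm k l, pow_mul, h2, one_pow, one_mul]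
    | inv x _ hx =>
      obtain ⟨k, hk, h1⟩ := hx
      refine ⟨k, hk, ?_⟩
      rw [map_inv, inv_pow, inv_pow, h1, inv_one]
  intro y
  obtain ⟨k, hk, h1⟩ := key y
  refine ⟨m * k, Nat.mul_pos (Nat.pos_of_ne_zero hidx) hk, ?_⟩
  rw [← pow_mul] at h1
  exact congrArg Subtype.val h1

theorem L_fin {n : ℕ} (hn : 4 ≤ n) {Γ : Type} [Group Γ] (φ : MulAut (FreeGroup (Fin n)) →* Γ)
    (h1 : ∀ z : MulAut (FreeGroup (Fin n)), QuasiNull z → ∃ k : ℕ, 0 < k ∧ (φ z) ^ k = 1)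
    (h2 : ∀ T : Subgroup Γ, (∀ x ∈ T, ∃ k : ℕ, 0 < k ∧ x ^ k = 1) → (T : Set Γ).Finite)
    (i : Fin n) (hi : n ≤ (i : ℕ) + 2) (L : sub2 n →* MulAut (FreeGroup (Fin n)))
    (hL : ∀ w : sub2 n, L w (FreeGroup.of i) = (w : FreeGroup (Fin n))⁻¹ * FreeGroup.of i ∧
        ∀ k, k ≠ i → L w (FreeGroup.of k) = FreeGroup.of k) :
    (Set.range fun w => φ (L w)).Finite := by
  obtain ⟨κ, hκ⟩ := kap_ex (show 2 ≤ n by omega)
  have hi' : ∀ k : Fin n, (k : ℕ) + 2 < n → k ≠ i := by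
    intro k hk h
    rw [h] at hk
    omega
  have hLfix : ∀ (w : sub2 n) {x : FreeGroup (Fin n)}, x ∈ sub2 n → L w x = x := fun w x hx =>
    fix_sub2 (fun k hk => (hL w).2 k (hi' k hk)) hx
  have hκfix : ∀ (w : sub2 n) {x : FreeGroup (Fin n)}, x ∈ sub2 n → κ w x = x := fun w x hx =>
    fix_sub2 (hκ w).1 hx
  -- the images of the conjugations
  have hκt : ∀ w : sub2 n, ∃ k : ℕ, 0 < k ∧ (φ (κ w)) ^ k = 1 := by
    intro w
    refine h1 _ (kap_null (show 2 ≤ n by omega) ((sub2 n).inv_mem w.2) (κ w) (hκ w).1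
      fun k hk => ?_)
    rw [(hκ w).2 k hk, inv_inv]
  have hfinκ : ((φ.comp κ).range : Set Γ).Finite := by
    refine h2 _ ?_
    rintro _ ⟨w, rfl⟩
    exact hκt w
  have hker : (φ.comp κ).ker.index ≠ 0 := by
    haveI : Finite (φ.comp κ).range := hfinκ.to_subtype
    rw [Subgroup.index_ker]
    exact Nat.card_pos.ne'
  have hconj : ∀ w u : sub2 n, κ w * L u * (κ w)⁻¹ = L (w * u * w⁻¹) := by
    intro w u
    rw [← map_inv κ w]
    apply aut_ext
    intro k
    have e0 : (κ w * L u * κ w⁻¹) (FreeGroup.of k) = κ w (L u (κ w⁻¹ (FreeGroup.of k))) := rfl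
    rw [e0]
    by_cases hk : (k : ℕ) + 2 < n
    · rw [(hκ _).1 k hk, (hL u).2 k (hi' k hk), (hκ w).1 k hk, (hL _).2 k (hi' k hk)]
    · have hk2 : n ≤ (k : ℕ) + 2 := not_lt.1 hk
      rw [(hκ w⁻¹).2 k hk2, map_mul (L u), map_mul (L u), hLfix u ((sub2 n).inv_mem (w⁻¹).2),
        hLfix u (w⁻¹).2]
      by_cases hki : k = i
      · rw [hki, (hL u).1, (hL _).1, map_mul (κ w), map_mul (κ w), map_mul (κ w),
          hκfix w ((sub2 n).inv_mem (w⁻¹).2),
          hκfix w ((sub2 n).inv_mem u.2), (hκ w).2 i hi, hκfix w (w⁻¹).2]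
        push_cast
        group
      · rw [(hL u).2 k hki, (hL _).2 k hki, map_mul (κ w), map_mul (κ w),
          hκfix w ((sub2 n).inv_mem (w⁻¹).2), (hκ w).2 k hk2, hκfix w (w⁻¹).2]
        push_cast
        group
  have hcen : ∀ w ∈ (φ.comp κ).ker, ∀ u : sub2 n,
      (φ.comp L) w * (φ.comp L) u = (φ.comp L) u * (φ.comp L) w := by
    intro w hw u
    have h3 := congrArg φ (hconj w u)
    have h4 : φ (κ w) = 1 := hw
    have h5 : φ (κ w * L u * (κ w)⁻¹) = φ (L u) := by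
      rw [map_mul φ, map_mul φ, map_inv φ, h4]
      group
    have h6 : φ (L (w * u * w⁻¹)) = φ (L w) * φ (L u) * (φ (L w))⁻¹ := by
      rw [map_mul L, map_mul L, map_inv L, map_mul φ, map_mul φ, map_inv φ]
    rw [h5, h6] at h3
    change φ (L w) * φ (L u) = φ (L u) * φ (L w)
    exact (eq_mul_inv_iff_mul_eq.1 h3).symm
  have hclo : Subgroup.closure {x : sub2 n | ∃ k : Fin n, (k : ℕ) + 2 < n ∧
      (x : FreeGroup (Fin n)) = FreeGroup.of k} = ⊤ := by
    have h3 := Subgroup.closure_closure_coe_preimage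
      (k := {x : FreeGroup (Fin n) | ∃ i : Fin n, (i : ℕ) + 2 < n ∧ x = FreeGroup.of i})
    exact h3
  have htor := tors_range (φ.comp L) (φ.comp κ).ker hker hcen _ hclo (by
    rintro x ⟨j, hj, hxj⟩
    have hij : i ≠ j := (hi' j hj).symm
    have h3 := lam_null hn hij (L x⁻¹) (by
      rw [(hL _).1, Subgroup.coe_inv, inv_inv, hxj]) (hL _).2
    obtain ⟨k, hk, h4⟩ := h1 _ h3
    refine ⟨k, hk, ?_⟩
    rw [map_inv, map_inv, inv_pow] at h4
    exact inv_eq_one.1 h4)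
  have hfin := h2 (φ.comp L).range (by
    rintro _ ⟨y, rfl⟩
    exact htor y)
  exact hfin

theorem R_fin {n : ℕ} (hn : 4 ≤ n) {Γ : Type} [Group Γ] (φ : MulAut (FreeGroup (Fin n)) →* Γ)
    (h1 : ∀ z : MulAut (FreeGroup (Fin n)), QuasiNull z → ∃ k : ℕ, 0 < k ∧ (φ z) ^ k = 1)
    (h2 : ∀ T : Subgroup Γ, (∀ x ∈ T, ∃ k : ℕ, 0 < k ∧ x ^ k = 1) → (T : Set Γ).Finite)
    (i : Fin n) (hi : n ≤ (i : ℕ) + 2) (R : sub2 n →* MulAut (FreeGroup (Fin n)))
    (hR : ∀ w : sub2 n, R w (FreeGroup.of i) = FreeGroup.of i * (w : FreeGroup (Fin n)) ∧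
        ∀ k, k ≠ i → R w (FreeGroup.of k) = FreeGroup.of k) :
    (Set.range fun w => φ (R w)).Finite := by
  obtain ⟨L, hL⟩ := L_ex i hi
  have hfin := L_fin hn φ h1 h2 i hi L hL
  obtain ⟨ι, hι1, hι2, hι3⟩ := inv_ex i
  have hi' : ∀ k : Fin n, (k : ℕ) + 2 < n → k ≠ i := by
    intro k hk h
    rw [h] at hk
    omega
  have hιfix : ∀ {x : FreeGroup (Fin n)}, x ∈ sub2 n → ι x = x := fun hx =>
    fix_sub2 (fun k hk => hι2 k (hi' k hk)) hx
  have hconj : ∀ w, R w = ι * L w * ι := by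
    intro w
    apply aut_ext
    intro k
    have e0 : (ι * L w * ι) (FreeGroup.of k) = ι (L w (ι (FreeGroup.of k))) := rfl
    rw [e0]
    by_cases hk : k = i
    · rw [hk, hι1, map_inv, (hL w).1, map_inv, map_mul, hι1, hιfix ((sub2 n).inv_mem w.2),
        (hR w).1]
      group
    · rw [hι2 k hk, (hL w).2 k hk, hι2 k hk, (hR w).2 k hk]
  refine (hfin.image fun f => φ ι * f * φ ι).subset ?_
  rintro _ ⟨w, rfl⟩
  refine ⟨φ (L w), ⟨w, rfl⟩, ?_⟩
  simp only
  rw [hconj w, map_mul, map_mul]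

end Pool.Agent.Work.MP_d3656f_al
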