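import Mathlib
import Pool.Agent.Work.MP_d3656f_al.A.EndA

/-!
# A/End : the group theoretic end of the proof

`P = sub2 n`, `p = n - 2`, `q = n - 1` the last two letters, `L_i, R_i` (`i ∈ {p, q}`) from `L_ex`,
`R_ex`; `φ ∘ L_i`, `φ ∘ R_i` have finite images by `L_fin`, `R_fin`.
1. For `w ∈ P` let `c_w = conj w` (inner automorphism `x ↦ w x w⁻¹`). In general
   `α c_x α⁻¹ = c_{α x}`. With `α = L_q (w⁻¹) : x_q ↦ w x_q`: `α c_{x_q} α⁻¹ = c_{w x_q} = c_w c_{x_q}`,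
   so `φ (c_w) = φ α * (φ c_{x_q} * (φ α)⁻¹ * (φ c_{x_q})⁻¹)` takes finitely many values.
2. Let `α` be in the set of the statement, with `w`. `α' = c_w⁻¹ α` fixes `x_i` for `i + 2 < n`, and
   `α' x_i = w⁻¹ u x_i v w` for `i ∈ {p, q}`, with `u, v ∈ P` depending on `i`. So (`aut_ext`, the
   values on all letters agree) `α' = L_p u_p R_p v_p L_q u_q R_q v_q` for some elements
   `u_p, v_p, u_q, v_q` of `P`, and `φ α = φ c_w * φ α'` takes finitely many values.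
-/

set_option autoImplicit false

namespace Pool.Agent.Work.MP_d3656f_al

open scoped Pointwise in
theorem endgame {n : ℕ} (hn : 4 ≤ n) {Γ : Type} [Group Γ]
    (φ : MulAut (FreeGroup (Fin n)) →* Γ)
    (h1 : ∀ z : MulAut (FreeGroup (Fin n)), QuasiNull z → ∃ k : ℕ, 0 < k ∧ (φ z) ^ k = 1)
    (h2 : ∀ T : Subgroup Γ, (∀ x ∈ T, ∃ k : ℕ, 0 < k ∧ x ^ k = 1) → (T : Set Γ).Finite) :
    (φ '' {α : MulAut (FreeGroup (Fin n)) | ∃ w ∈ sub2 n,
      (∀ i : Fin n, (i : ℕ) + 2 < n → α (FreeGroup.of i) = w * FreeGroup.of i * w⁻¹) ∧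
      ∀ i : Fin n, n ≤ (i : ℕ) + 2 →
        ∃ u ∈ sub2 n, ∃ v ∈ sub2 n, α (FreeGroup.of i) = u * FreeGroup.of i * v}).Finite := by
  obtain ⟨p, hp⟩ : ∃ p : Fin n, (p : ℕ) = n - 2 := ⟨⟨n - 2, by omega⟩, rfl⟩
  obtain ⟨q, hq⟩ : ∃ q : Fin n, (q : ℕ) = n - 1 := ⟨⟨n - 1, by omega⟩, rfl⟩
  have hp2 : n ≤ (p : ℕ) + 2 := by omega
  have hq2 : n ≤ (q : ℕ) + 2 := by omega
  have hpq : p ≠ q := by
    intro h
    have := congrArg Fin.val h
    omega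
  have hcases : ∀ i : Fin n, (i : ℕ) + 2 < n ∨ i = p ∨ i = q := by
    intro i
    have hi := i.2
    by_cases h : (i : ℕ) + 2 < n
    · exact Or.inl h
    · right
      by_cases h3 : (i : ℕ) = n - 2
      · left
        exact Fin.ext (by rw [h3, hp])
      · right
        exact Fin.ext (by rw [hq]; omega)
  have hnep : ∀ i : Fin n, (i : ℕ) + 2 < n → i ≠ p := by
    intro i hi h
    have := congrArg Fin.val h
    omega
  have hneq : ∀ i : Fin n, (i : ℕ) + 2 < n → i ≠ q := by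
    intro i hi h
    have := congrArg Fin.val h
    omega
  obtain ⟨Lp, hLp⟩ := L_ex p hp2
  obtain ⟨Rp, hRp⟩ := R_ex p hp2
  obtain ⟨Lq, hLq⟩ := L_ex q hq2
  obtain ⟨Rq, hRq⟩ := R_ex q hq2
  have fLp := L_fin hn φ h1 h2 p hp2 Lp hLp
  have fRp := R_fin hn φ h1 h2 p hp2 Rp hRp
  have fLq := L_fin hn φ h1 h2 q hq2 Lq hLq
  have fRq := R_fin hn φ h1 h2 q hq2 Rq hRq
  -- inner automorphisms by elements of `P`
  have fc : (Set.range fun w : sub2 n => φ (MulAut.conj (w : FreeGroup (Fin n)))).Finite := by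
    set c := φ (MulAut.conj (FreeGroup.of q)) with hc
    refine (fLq.image fun f => f * c * f⁻¹ * c⁻¹).subset ?_
    rintro _ ⟨w, rfl⟩
    refine ⟨φ (Lq w⁻¹), ⟨w⁻¹, rfl⟩, ?_⟩
    obtain ⟨β, hβ⟩ : ∃ β, β = Lq w⁻¹ := ⟨_, rfl⟩
    have e2 : β (FreeGroup.of q) = (w : FreeGroup (Fin n)) * FreeGroup.of q := by
      rw [hβ, (hLq w⁻¹).1]
      simp
    have e1 : β * MulAut.conj (FreeGroup.of q) * β⁻¹ =
        MulAut.conj (w : FreeGroup (Fin n)) * MulAut.conj (FreeGroup.of q) := by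
      apply MulEquiv.ext
      intro x
      have e4 : β (β⁻¹ x) = x := MulAut.apply_inv_self _ _ _
      rw [MulAut.mul_apply, MulAut.mul_apply, MulAut.conj_apply, map_mul, map_mul, map_inv, e2,
        e4, MulAut.mul_apply, MulAut.conj_apply, MulAut.conj_apply]
      group
    have e3 := congrArg φ e1
    rw [map_mul, map_mul, map_mul, map_inv, ← hc] at e3
    simp only
    rw [← hβ, e3, mul_inv_cancel_right]
  have hfin := (((fc.mul fLp).mul fRp).mul fLq).mul fRq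
  refine hfin.subset ?_
  rintro _ ⟨α, ⟨w, hw, hα1, hα2⟩, rfl⟩
  obtain ⟨up, hup, vp, hvp, ep⟩ := hα2 p hp2
  obtain ⟨uq, huq, vq, hvq, eq⟩ := hα2 q hq2
  set W : sub2 n := ⟨w, hw⟩ with hW
  set UP : sub2 n := ⟨up, hup⟩ with hUP
  set VP : sub2 n := ⟨vp, hvp⟩ with hVP
  set UQ : sub2 n := ⟨uq, huq⟩ with hUQ
  set VQ : sub2 n := ⟨vq, hvq⟩ with hVQ
  have fixLp : ∀ (a : sub2 n) {x : FreeGroup (Fin n)}, x ∈ sub2 n → Lp a x = x := fun a x hx =>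
    fix_sub2 (fun i hi => (hLp a).2 i (hnep i hi)) hx
  have fixRp : ∀ (a : sub2 n) {x : FreeGroup (Fin n)}, x ∈ sub2 n → Rp a x = x := fun a x hx =>
    fix_sub2 (fun i hi => (hRp a).2 i (hnep i hi)) hx
  have fixLq : ∀ (a : sub2 n) {x : FreeGroup (Fin n)}, x ∈ sub2 n → Lq a x = x := fun a x hx =>
    fix_sub2 (fun i hi => (hLq a).2 i (hneq i hi)) hx
  obtain ⟨A, hA⟩ : ∃ A, A = Lp (W⁻¹ * UP)⁻¹ := ⟨_, rfl⟩
  obtain ⟨B, hB⟩ : ∃ B, B = Rp (VP * W) := ⟨_, rfl⟩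
  obtain ⟨C, hC⟩ : ∃ C, C = Lq (W⁻¹ * UQ)⁻¹ := ⟨_, rfl⟩
  obtain ⟨D, hD⟩ : ∃ D, D = Rq (VQ * W) := ⟨_, rfl⟩
  have hA1 : A (FreeGroup.of p) = w⁻¹ * up * FreeGroup.of p := by
    rw [hA, (hLp _).1]
    simp [hW, hUP]
  have hB1 : B (FreeGroup.of p) = FreeGroup.of p * (vp * w) := by
    rw [hB, (hRp _).1]
    simp [hW, hVP]
  have hC1 : C (FreeGroup.of q) = w⁻¹ * uq * FreeGroup.of q := by
    rw [hC, (hLq _).1]
    simp [hW, hUQ]
  have hD1 : D (FreeGroup.of q) = FreeGroup.of q * (vq * w) := by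
    rw [hD, (hRq _).1]
    simp [hW, hVQ]
  have hA2 : ∀ k, k ≠ p → A (FreeGroup.of k) = FreeGroup.of k := by rw [hA]; exact (hLp _).2
  have hB2 : ∀ k, k ≠ p → B (FreeGroup.of k) = FreeGroup.of k := by rw [hB]; exact (hRp _).2
  have hC2 : ∀ k, k ≠ q → C (FreeGroup.of k) = FreeGroup.of k := by rw [hC]; exact (hLq _).2
  have hD2 : ∀ k, k ≠ q → D (FreeGroup.of k) = FreeGroup.of k := by rw [hD]; exact (hRq _).2
  have hA3 : ∀ {x : FreeGroup (Fin n)}, x ∈ sub2 n → A x = x := by rw [hA]; exact fixLp _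
  have hB3 : ∀ {x : FreeGroup (Fin n)}, x ∈ sub2 n → B x = x := by rw [hB]; exact fixRp _
  have hC3 : ∀ {x : FreeGroup (Fin n)}, x ∈ sub2 n → C x = x := by rw [hC]; exact fixLq _
  have mvp : vp * w ∈ sub2 n := (sub2 n).mul_mem hvp hw
  have mvq : vq * w ∈ sub2 n := (sub2 n).mul_mem hvq hw
  have muq : w⁻¹ * uq ∈ sub2 n := (sub2 n).mul_mem ((sub2 n).inv_mem hw) huq
  have key : α = MulAut.conj (W : FreeGroup (Fin n)) * A * B * C * D := by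
    apply aut_ext
    intro i
    have e0 : (MulAut.conj (W : FreeGroup (Fin n)) * A * B * C * D) (FreeGroup.of i) =
        w * A (B (C (D (FreeGroup.of i)))) * w⁻¹ := rfl
    rw [e0]
    rcases hcases i with hi | h | h
    · rw [hD2 i (hneq i hi), hC2 i (hneq i hi), hB2 i (hnep i hi), hA2 i (hnep i hi)]
      exact hα1 i hi
    · rw [h, hD2 p hpq, hC2 p hpq, hB1, map_mul, hA1, hA3 mvp, ep]
      group
    · rw [h, hD1, map_mul C, hC1, hC3 mvq, map_mul B, map_mul B, hB3 muq, hB2 q hpq.symm,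
        hB3 mvq, map_mul A, map_mul A, hA3 muq, hA2 q hpq.symm, hA3 mvq, eq]
      group
  rw [key, map_mul, map_mul, map_mul, map_mul]
  refine Set.mul_mem_mul (Set.mul_mem_mul (Set.mul_mem_mul (Set.mul_mem_mul ?_ ?_) ?_) ?_) ?_
  · exact ⟨W, rfl⟩
  · exact ⟨(W⁻¹ * UP)⁻¹, by rw [hA]⟩
  · exact ⟨VP * W, by rw [hB]⟩
  · exact ⟨(W⁻¹ * UQ)⁻¹, by rw [hC]⟩
  · exact ⟨VQ * W, by rw [hD]⟩

end Pool.Agent.Work.MP_d3656f_al
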