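import Mathlib
import Pool.Agent.Work.MP_d3656f_al.I.IT
import Pool.Agent.Work.MP_d3656f_al.N.Tr2
import Pool.Agent.Work.MP_d3656f_al.N.MatH
import Pool.Agent.Work.MP_d3656f_al.B.StepB

/-!
# A/FinOrd : quasi null elements have images of finite order

Let `φ : A → OutG (SG g)`, `z` quasi null, and suppose `φ z` has infinite order. Let `Ψ` be a lift
of `φ z`, `Φ0 = Ψ^2`, `OP` by `OP_sq`. `matH Φ0` is invertible of size `2 g ≥ 3`, so by `trace_gt`
there is `k ≥ 1` with `2 < tr (matH Φ0)^k = tr (matH (Φ0^k))`. By `index_thm` (`OP_pow`) some lift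
`Φ = conj γ * Φ0^k` has `Fix3`, and it is `OP`. `cls Φ = (φ z)^(2k) ≠ 1`, so `Φ ≠ 1`. Let `C1`, `q`
be from `stepB`. Let `H = C1.comap φ ⊓ centralizer {z}`. `φ` maps the centraliser of `z` into the
centraliser of `(φ z)^(2k) = cls Φ`, in which `C1` has finite index, so `H.relIndex (centralizer
{z}) ≠ 0`. `q ∘ φ` is `HQM` on `H`, `z^(2k) ∈ H`, so `q (cls Φ) = q (φ (z^(2k))) = 0`, a
contradiction.
-/

set_option autoImplicit false

namespace Pool.Agent.Work.MP_d3656f_al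

theorem fin_ord {g : ℕ} (hg : 2 ≤ g) (M : Model (SG g)) {A : Type} [Group A]
    (φ : A →* OutG (SG g)) {z : A} (hz : QuasiNull z) : ∃ k : ℕ, 0 < k ∧ (φ z) ^ k = 1 := by
  by_contra hcon
  push Not at hcon
  obtain ⟨Ψ, hΨ⟩ := cls_surj (φ z)
  have hop0 : M.OP (Ψ ^ 2) := M.OP_sq Ψ
  have hcard : 3 ≤ Fintype.card (Fin g ⊕ Fin g) := by
    rw [Fintype.card_sum, Fintype.card_fin]; omega
  obtain ⟨k, hk1, hk⟩ := trace_gt (matH (Ψ ^ 2)) (matH_det _) hcard
  rw [← matH_pow] at hk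
  have hex : ∃ γ, M.Fix3 (MulAut.conj γ * (Ψ ^ 2) ^ k) := by
    by_contra h
    push Not at h
    have := index_thm M (M.OP_pow hop0 k) h
    omega
  obtain ⟨γ, h3⟩ := hex
  have hop : M.OP (MulAut.conj γ * (Ψ ^ 2) ^ k) := M.OP_mul (M.OP_conj γ) (M.OP_pow hop0 k)
  have hcls : cls (MulAut.conj γ * (Ψ ^ 2) ^ k) = φ (z ^ (2 * k)) := by
    have h1 : cls ((Ψ ^ 2) ^ k) = cls (MulAut.conj γ * (Ψ ^ 2) ^ k) :=
      (cls_eq_iff _ _).2 ⟨γ, rfl⟩
    rw [← h1, map_pow, map_pow, hΨ, map_pow, pow_mul]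
  have hpow : φ (z ^ (2 * k)) ≠ 1 := by
    rw [map_pow]
    exact hcon (2 * k) (by omega)
  have hne : MulAut.conj γ * (Ψ ^ 2) ^ k ≠ 1 := by
    intro h
    rw [h, map_one] at hcls
    exact hpow hcls.symm
  obtain ⟨C1, q, hC1, hidx, hq, hmem, hqne⟩ := M.stepB hop hne h3
  rw [hcls] at hC1 hidx hmem hqne
  have hle : (Subgroup.centralizer {z}).map φ ≤ Subgroup.centralizer {φ (z ^ (2 * k))} := by
    rintro _ ⟨x, hx, rfl⟩
    rw [Subgroup.mem_centralizer_iff]
    intro y hy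
    rw [Set.mem_singleton_iff] at hy
    subst hy
    have hx' : z * x = x * z := (Subgroup.mem_centralizer_iff.1 hx) z rfl
    have hc : Commute z x := hx'
    have hc2 : Commute (z ^ (2 * k)) x := hc.pow_left _
    rw [← map_mul, ← map_mul, hc2.eq]
  have hz' := hz (C1.comap φ ⊓ Subgroup.centralizer {z}) inf_le_right
    (by
      rw [Subgroup.inf_relIndex_right, Subgroup.relIndex_comap]
      intro h0
      exact hidx (Subgroup.relIndex_eq_zero_of_le_right hle h0))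
    (fun x => q (φ x))
    ⟨by
      obtain ⟨D, hD⟩ := hq.1
      refine ⟨D, fun x hx y hy => ?_⟩
      show |q (φ (x * y)) - q (φ x) - q (φ y)| ≤ D
      rw [map_mul]
      exact hD _ hx.1 _ hy.1,
     fun x hx n => by
      show q (φ (x ^ n)) = n * q (φ x)
      rw [map_pow]
      exact hq.2 _ hx.1 n⟩
    (2 * k)
    ⟨hmem, by
      show z ^ (2 * k) ∈ Subgroup.centralizer {z}
      rw [Subgroup.mem_centralizer_iff]
      intro y hy
      rw [Set.mem_singleton_iff] at hy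
      subst hy
      exact ((Commute.refl y).pow_right _).eq⟩
  exact hqne hz'

end Pool.Agent.Work.MP_d3656f_al
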